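import Mathlib

/-!
# Removable pairs: realizers from block orders

`Rz S t`: the order restricted to `S` is the intersection of `t` linear extensions, each given by a
numbering which is injective on `S`. The lemma `rz_of_blocks` builds a realizer of the whole poset out
of linear extensions which are sorted by block number first and by a given numbering inside a block.
The lemmas below give removable pairs in several situations.
-/

set_option autoImplicit false

namespace Pool.Agent.Helper419_RPC

open Set

variable {α : Type*} [PartialOrder α]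

/-- The order restricted to `S` is the intersection of `t` linear extensions. -/
def Rz (S : Set α) (t : ℕ) : Prop :=
  ∃ f : Fin t → α → ℕ, (∀ i, Set.InjOn (f i) S) ∧
    ∀ a ∈ S, ∀ b ∈ S, (a ≤ b ↔ ∀ i, f i a ≤ f i b)

omit [PartialOrder α] in
/-- comparison of two-digit numbers, first digit. -/
lemma enc_lt_of_lt {M a b c d : ℕ} (hab : a < b) (hc : c < M) : a * M + c < b * M + d := by
  have h1 : (a + 1) * M ≤ b * M := Nat.mul_le_mul_right M hab
  have h2 : (a + 1) * M = a * M + M := by ring
  omega

/-- A realizer of the whole poset from block numbers `blk` and numberings `val`. -/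
lemma rz_of_blocks [Finite α] {ι : Type*} [Fintype ι] {k : ℕ} (hk : Fintype.card ι = k)
    (blk val : ι → α → ℕ)
    (hinj : ∀ i a b, blk i a = blk i b → val i a = val i b → a = b)
    (hmono : ∀ i a b, a < b → blk i a < blk i b ∨ (blk i a = blk i b ∧ val i a ≤ val i b))
    (hsep : ∀ a b, ¬ a ≤ b → ∃ i, blk i b < blk i a ∨ (blk i b = blk i a ∧ val i b < val i a)) :
    Rz (Set.univ : Set α) k := by
  classical
  have := Fintype.ofFinite α
  let e : Fin k ≃ ι := (Fintype.equivFinOfCardEq hk).symm
  let M : ℕ := (Finset.univ.sup fun p : ι × α => val p.1 p.2) + 1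
  have hM : ∀ i a, val i a < M := by
    intro i a
    have : val i a ≤ Finset.univ.sup fun p : ι × α => val p.1 p.2 :=
      Finset.le_sup (f := fun p : ι × α => val p.1 p.2) (Finset.mem_univ (i, a))
    omega
  refine ⟨fun j a => blk (e j) a * M + val (e j) a, ?_, ?_⟩
  · intro j a _ b _ hab
    simp only at hab
    have h1 : blk (e j) a = blk (e j) b := by
      rcases lt_trichotomy (blk (e j) a) (blk (e j) b) with h | h | h
      · have := enc_lt_of_lt (d := val (e j) b) h (hM (e j) a); omega
      · exact h
      · have := enc_lt_of_lt (d := val (e j) a) h (hM (e j) b); omega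
    have h2 : val (e j) a = val (e j) b := by rw [h1] at hab; omega
    exact hinj (e j) a b h1 h2
  · intro a _ b _
    constructor
    · intro hab j
      rcases eq_or_lt_of_le hab with h | h
      · rw [h]
      · rcases hmono (e j) a b h with h' | ⟨h', h''⟩
        · exact (enc_lt_of_lt (d := val (e j) b) h' (hM (e j) a)).le
        · simp only; rw [h']; omega
    · intro hall
      by_contra hab
      obtain ⟨i, hi⟩ := hsep a b hab
      have := hall (e.symm i)
      simp only [Equiv.apply_symm_apply] at this
      rcases hi with h | ⟨h, h'⟩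
      · have := enc_lt_of_lt (d := val i a) h (hM i b); omega
      · rw [h] at this; omega

/-- A realizer may be enlarged. -/
lemma Rz.mono {S : Set α} {t s : ℕ} (h : Rz S t) (ht : 1 ≤ t) (hts : t ≤ s) : Rz S s := by
  obtain ⟨f, hinj, hord⟩ := h
  let φ : Fin s → Fin t := fun j => ⟨min j.1 (t - 1), by omega⟩
  refine ⟨fun j => f (φ j), fun j => hinj _, ?_⟩
  intro a ha b hb
  rw [hord a ha b hb]
  constructor
  · intro h j; exact h _
  · intro h i
    have hi := i.2
    have h2 : f (φ ⟨i.1, by omega⟩) a ≤ f (φ ⟨i.1, by omega⟩) b := h ⟨i.1, by omega⟩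
    have hφ : φ ⟨i.1, by omega⟩ = i := by
      apply Fin.ext; simp only [φ]; omega
    rwa [hφ] at h2

/-- A realizer restricts to a subset. -/
lemma Rz.restrict {S T : Set α} {t : ℕ} (h : Rz S t) (hTS : T ⊆ S) : Rz T t := by
  obtain ⟨f, hinj, hord⟩ := h
  exact ⟨f, fun i => (hinj i).mono hTS, fun a ha b hb => hord a (hTS ha) b (hTS hb)⟩

/-- data of a realizer of the complement of two points. -/
lemma real_data {x y : α} {t : ℕ} (h : Rz ({x, y}ᶜ : Set α) t) :
    ∃ f : Fin t → α → ℕ,
      (∀ i a b, a ≠ x → a ≠ y → b ≠ x → b ≠ y → f i a = f i b → a = b) ∧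
      (∀ i a b, a ≠ x → a ≠ y → b ≠ x → b ≠ y → a ≤ b → f i a ≤ f i b) ∧
      (∀ a b, a ≠ x → a ≠ y → b ≠ x → b ≠ y → ¬ a ≤ b → ∃ i, f i b < f i a) := by
  obtain ⟨f, hinj, hord⟩ := h
  have mem : ∀ a, a ≠ x → a ≠ y → a ∈ ({x, y}ᶜ : Set α) := by
    intro a h1 h2 h3
    rcases h3 with h3 | h3
    · exact h1 h3
    · exact h2 h3
  refine ⟨f, ?_, ?_, ?_⟩
  · intro i a b h1 h2 h3 h4 h; exact hinj i (mem a h1 h2) (mem b h3 h4) h
  · intro i a b h1 h2 h3 h4 h; exact (hord a (mem a h1 h2) b (mem b h3 h4)).1 h i
  · intro a b h1 h2 h3 h4 h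
    by_contra hcon
    push Not at hcon
    exact h ((hord a (mem a h1 h2) b (mem b h3 h4)).2 hcon)

end Pool.Agent.Helper419_RPC
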