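import Pool.Agent.Helper419_RPC.Cover

/-!
# A poset without removable pairs has at least `2 |P|` cover relations
-/

set_option autoImplicit false

namespace Pool.Agent.Helper419_RPC

open Set Classical

variable {α : Type*} [PartialOrder α] [Fintype α]

/-- lower covers -/
noncomputable def LC (y : α) : Finset α := Finset.univ.filter (fun z => z ⋖ y)
/-- upper covers -/
noncomputable def UC (y : α) : Finset α := Finset.univ.filter (fun z => y ⋖ z)
/-- lower covers which are minimal -/
noncomputable def MC (y : α) : Finset α := (LC y).filter (fun z => IsMin z)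
/-- upper covers which are not maximal -/
noncomputable def NC (y : α) : Finset α := (UC y).filter (fun z => ¬ IsMax z)
/-- upper covers which are maximal -/
noncomputable def XC (y : α) : Finset α := (UC y).filter (fun z => IsMax z)
/-- the share of a minimal lower cover -/
noncomputable def share (y : α) : ℚ := (((LC y).card : ℚ) - 2) / ((MC y).card : ℚ)

lemma mem_LC {z y : α} : z ∈ LC y ↔ z ⋖ y := by simp [LC]
lemma mem_UC {z y : α} : z ∈ UC y ↔ y ⋖ z := by simp [UC]
lemma mem_MC {z y : α} : z ∈ MC y ↔ z ⋖ y ∧ IsMin z := by simp [MC, mem_LC]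
lemma mem_NC {z y : α} : z ∈ NC y ↔ y ⋖ z ∧ ¬ IsMax z := by simp [NC, mem_UC]
lemma mem_XC {z y : α} : z ∈ XC y ↔ y ⋖ z ∧ IsMax z := by simp [XC, mem_UC]

lemma MC_sub (y : α) : MC y ⊆ LC y := Finset.filter_subset _ _

lemma UC_card (y : α) : (UC y).card = (NC y).card + (XC y).card := by
  have := Finset.card_filter_add_card_filter_not (s := UC y) (fun z => IsMax z)
  unfold NC XC
  omega

/-- three lower covers if one of them is minimal. -/
lemma NoRem.lc_three (H : NoRem α) {a y : α} (ha : IsMin a) (hay : a ⋖ y) :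
    3 ≤ (LC y).card := by
  have hy : ¬ IsMin y := fun hm => hay.1.not_ge (hm hay.1.le)
  obtain ⟨c, hc, hca, -, hcy⟩ := H.three_below hy a a
  obtain ⟨e1, he1, hce1⟩ := exists_lc hcy
  have he1a : e1 ≠ a := fun e => hca ((e ▸ hce1).antisymm (ha (e ▸ hce1)))
  obtain ⟨w, hw, hwa, hwe⟩ := H.no_greatest ha hay.1 he1.1 he1a
  obtain ⟨e2, he2, hwe2⟩ := exists_lc hw
  have he2a : e2 ≠ a := fun e => hwa ((e ▸ hwe2).antisymm (ha (e ▸ hwe2)))
  have he21 : e2 ≠ e1 := fun e => hwe (e ▸ hwe2)
  have hsub : ({a, e1, e2} : Finset α) ⊆ LC y := by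
    intro z hz
    simp only [Finset.mem_insert, Finset.mem_singleton] at hz
    rw [mem_LC]
    rcases hz with h | h | h <;> rw [h] <;> assumption
  have hcard : ({a, e1, e2} : Finset α).card = 3 := by
    rw [Finset.card_insert_of_notMem, Finset.card_insert_of_notMem, Finset.card_singleton]
    · simp only [Finset.mem_singleton]; exact he21.symm
    · simp only [Finset.mem_insert, Finset.mem_singleton, not_or]
      exact ⟨he1a.symm, he2a.symm⟩
  rw [← hcard]
  exact Finset.card_le_card hsub

/-- two lower covers. -/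
lemma NoRem.lc_two (H : NoRem α) {y : α} (hy : ¬ IsMin y) : 2 ≤ (LC y).card := by
  obtain ⟨c, hc, -, -, hcy⟩ := H.three_below hy y y
  obtain ⟨e1, he1, hce1⟩ := exists_lc hcy
  have : ∃ w, w < y ∧ ¬ w ≤ e1 := by
    by_contra hcon
    push Not at hcon
    exact H.unique_lower he1.1 hcon
  obtain ⟨w, hw, hwe⟩ := this
  obtain ⟨e2, he2, hwe2⟩ := exists_lc hw
  have he21 : e2 ≠ e1 := fun e => hwe (e ▸ hwe2)
  have : 1 < (LC y).card := Finset.one_lt_card.2 ⟨e1, mem_LC.2 he1, e2, mem_LC.2 he2, he21.symm⟩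
  omega

lemma MC_pos {a y : α} (ha : IsMin a) (hay : a ⋖ y) : 1 ≤ (MC y).card :=
  Finset.card_pos.2 ⟨a, mem_MC.2 ⟨hay, ha⟩⟩

lemma NoRem.share_third (H : NoRem α) {a y : α} (ha : IsMin a) (hay : a ⋖ y) :
    1 / 3 ≤ share y := by
  have h1 := H.lc_three ha hay
  have h2 := MC_pos ha hay
  have h3 := Finset.card_le_card (MC_sub y)
  unfold share
  have h2' : (0 : ℚ) < (MC y).card := by exact_mod_cast h2
  rw [div_le_div_iff₀ (by norm_num) h2']
  have h1' : (3 : ℚ) ≤ (LC y).card := by exact_mod_cast h1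
  have h3' : ((MC y).card : ℚ) ≤ (LC y).card := by exact_mod_cast h3
  linarith

/-- if not all points below `y` are minimal then some lower cover is not minimal. -/
lemma MC_lt {y : α} (hy : ¬ ∀ z, z < y → IsMin z) : (MC y).card + 1 ≤ (LC y).card := by
  push Not at hy
  obtain ⟨z, hz, hzm⟩ := hy
  obtain ⟨e, he, hze⟩ := exists_lc hz
  have hem : ¬ IsMin e := by
    intro hm
    rcases hze.lt_or_eq with h' | h'
    · exact h'.not_ge (hm h'.le)
    · exact hzm (h' ▸ hm)
  have : (MC y).card < (LC y).card := by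
    apply Finset.card_lt_card
    refine ⟨MC_sub y, ?_⟩
    intro hsub
    exact hem (mem_MC.1 (hsub (mem_LC.2 he))).2
  omega

lemma NoRem.share_half (H : NoRem α) {a y : α} (ha : IsMin a) (hay : a ⋖ y)
    (hy : ¬ ∀ z, z < y → IsMin z) : 1 / 2 ≤ share y := by
  have h1 := H.lc_three ha hay
  have h2 := MC_pos ha hay
  have h3 := MC_lt hy
  unfold share
  have h2' : (0 : ℚ) < (MC y).card := by exact_mod_cast h2
  rw [div_le_div_iff₀ (by norm_num) h2']
  have h1' : (3 : ℚ) ≤ (LC y).card := by exact_mod_cast h1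
  have h3' : ((MC y).card : ℚ) + 1 ≤ (LC y).card := by exact_mod_cast h3
  linarith

/-- `y` with only minimal points below it. -/
lemma share_level {y : α} (hy : ∀ z, z < y → IsMin z) : MC y = LC y := by
  apply Finset.Subset.antisymm (MC_sub y)
  intro z hz
  rw [mem_LC] at hz
  exact mem_MC.2 ⟨hz, hy z hz.1⟩

/-- the shares of the two covers. -/
lemma TwoCov.share_sum {a y₁ y₂ : α} (T : TwoCov a y₁ y₂) (H : NoRem α)
    (hX : (XC a).card ≤ 1) : 1 ≤ share y₁ + share y₂ := by
  have hXle : ∀ c c', a ⋖ c → IsMax c → a ⋖ c' → IsMax c' → c = c' := by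
    intro c c' h1 h2 h3 h4
    exact Finset.card_le_one.1 hX c (mem_XC.2 ⟨h1, h2⟩) c' (mem_XC.2 ⟨h3, h4⟩)
  -- a maximal upper cover
  have hex : ∃ c, a ⋖ c ∧ IsMax c := by
    by_contra hno
    push Not at hno
    refine T.not_twin H (fun v => ⟨T.above H ?_ v, T.symm.above H ?_ v⟩)
    · intro c hc hcm; exact absurd hcm (hno c hc)
    · intro c hc hcm; exact absurd hcm (hno c hc)
  obtain ⟨c, hac, hc⟩ := hex
  have hlev : ∀ y : α, (∀ z, z < y → IsMin z) →
      ∀ c, a ⋖ c → IsMax c → ∀ w, w < y → w ≤ c := fun y hy c' _ hc' w hw =>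
    H.min_le_max (hy w hw) hc'
  -- the mixed case
  have mix : ∀ z₁ z₂ : α, TwoCov a z₁ z₂ → (∀ z, z < z₁ → IsMin z) →
      (¬ ∀ z, z < z₂ → IsMin z) → 1 ≤ share z₁ + share z₂ := by
    intro z₁ z₂ T' h1 h2
    have e1 := H.share_half T'.min T'.cov₂ h2
    have c1 := H.lc_three T'.min T'.cov₁
    have c2 := H.lc_three T'.min T'.cov₂
    have m1 := share_level h1
    have m2 := MC_lt h2
    have p2 := MC_pos T'.min T'.cov₂
    by_cases hk : 4 ≤ (LC z₁).card
    · have : 1 / 2 ≤ share z₁ := by
        unfold share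
        rw [m1]
        have hk' : (4 : ℚ) ≤ (LC z₁).card := by exact_mod_cast hk
        rw [div_le_div_iff₀ (by norm_num) (by linarith)]
        linarith
      linarith
    · have hk3 : (LC z₁).card = 3 := by omega
      have s1 : share z₁ = 1 / 3 := by
        unfold share
        rw [m1, hk3]
        norm_num
      by_cases hbad : (MC z₂).card = 2 ∧ (LC z₂).card = 3
      · exfalso
        -- the second minimal lower cover
        obtain ⟨a₂, ha₂, ha₂a⟩ : ∃ b ∈ MC z₂, b ≠ a := by
          apply Finset.exists_mem_ne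
          omega
        obtain ⟨x, hx, hxm⟩ : ∃ x ∈ LC z₂, x ∉ MC z₂ := by
          apply Finset.exists_mem_notMem_of_card_lt_card
          omega
        have hxy := mem_LC.1 hx
        have hxmin : ¬ IsMin x := fun hm => hxm (mem_MC.2 ⟨hxy, hm⟩)
        obtain ⟨ha₂y, ha₂m⟩ := mem_MC.1 ha₂
        refine T'.mixed H hc (fun c' h3 h4 => hXle c' c h3 h4 hac hc) h1 ha₂m ha₂y ha₂a
          hxmin hxy ?_
        intro e he
        by_contra hcon
        push Not at hcon
        obtain ⟨n1, n2, n3⟩ := hcon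
        have hxa : x ≠ a := fun h' => hxmin (h' ▸ T'.min)
        have hxa₂ : x ≠ a₂ := fun h' => hxmin (h' ▸ ha₂m)
        have hsub : ({a, a₂, x, e} : Finset α) ⊆ LC z₂ := by
          intro z hz
          simp only [Finset.mem_insert, Finset.mem_singleton] at hz
          rw [mem_LC]
          rcases hz with h | h | h | h <;> rw [h]
          · exact T'.cov₂
          · exact ha₂y
          · exact hxy
          · exact he
        have hcard : ({a, a₂, x, e} : Finset α).card = 4 := by
          rw [Finset.card_insert_of_notMem, Finset.card_insert_of_notMem,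
            Finset.card_insert_of_notMem, Finset.card_singleton]
          all_goals simp only [Finset.mem_insert, Finset.mem_singleton, not_or]
          · exact n3.symm
          · exact ⟨hxa₂.symm, n2.symm⟩
          · exact ⟨ha₂a.symm, hxa.symm, n1.symm⟩
        have := Finset.card_le_card hsub
        omega
      · have : 2 / 3 ≤ share z₂ := by
          unfold share
          have h2' : (0 : ℚ) < (MC z₂).card := by exact_mod_cast p2
          rw [div_le_div_iff₀ (by norm_num) h2']
          have : 2 * (MC z₂).card + 6 ≤ 3 * (LC z₂).card := by omega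
          have : (2 * (MC z₂).card + 6 : ℚ) ≤ 3 * (LC z₂).card := by exact_mod_cast this
          linarith
        linarith
  by_cases h1 : ∀ z, z < y₁ → IsMin z
  · by_cases h2 : ∀ z, z < y₂ → IsMin z
    · exfalso
      exact T.not_twin H (fun v => ⟨T.above H (hlev y₁ h1) v, T.symm.above H (hlev y₂ h2) v⟩)
    · exact mix y₁ y₂ T h1 h2
  · by_cases h2 : ∀ z, z < y₂ → IsMin z
    · have := mix y₂ y₁ T.symm h2 h1
      linarith
    · have e1 := H.share_half T.min T.cov₁ h1
      have e2 := H.share_half T.min T.cov₂ h2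
      linarith

/-- two upper covers which are not maximal. -/
lemma NoRem.two_nc (H : NoRem α) (hcard : ∃ x y : α, x ≠ y) {a : α} (ha : IsMin a) :
    2 ≤ (NC a).card := by
  by_contra hlt
  have hle : (NC a).card ≤ 1 := by omega
  -- another minimal point below the cover
  have hex : ∃ b, IsMin b ∧ a ≠ b ∧ ∀ e, a ⋖ e → ¬ IsMax e → b ≤ e := by
    by_cases h0 : ∃ y, y ∈ NC a
    · obtain ⟨y, hy⟩ := h0
      obtain ⟨hay, hymax⟩ := mem_NC.1 hy
      have hym : ¬ IsMin y := fun hm => hay.1.not_ge (hm hay.1.le)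
      obtain ⟨b, hb, hba, -, hby⟩ := H.three_below hym a a
      refine ⟨b, hb, hba.symm, ?_⟩
      intro e he hemax
      have : e = y := Finset.card_le_one.1 hle e (mem_NC.2 ⟨he, hemax⟩) y hy
      rw [this]; exact hby.le
    · push Not at h0
      obtain ⟨u, hau⟩ := H.exists_above hcard ha
      obtain ⟨b, hb, hba, -⟩ := H.two_below hau
      refine ⟨b, hb, hba.symm, ?_⟩
      intro e he hemax
      exact absurd (mem_NC.2 ⟨he, hemax⟩) (h0 e)
  obtain ⟨b, hb, hab, h⟩ := hex
  exact H.not_nested' ha hb hab h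

/-- the charge of a minimal point. -/
lemma NoRem.charge (H : NoRem α) (hcard : ∃ x y : α, x ≠ y) {a : α} (ha : IsMin a) :
    0 ≤ (∑ y ∈ NC a, share y) + ((UC a).card : ℚ) - 4 := by
  have h2 := H.two_nc hcard ha
  have hsum : ((NC a).card : ℚ) * (1 / 3) ≤ ∑ y ∈ NC a, share y := by
    have : ∑ _y ∈ NC a, (1 / 3 : ℚ) ≤ ∑ y ∈ NC a, share y :=
      Finset.sum_le_sum (fun y hy => H.share_third ha (mem_NC.1 hy).1)
    rwa [Finset.sum_const, nsmul_eq_mul] at this
  have hU : ((UC a).card : ℚ) = (NC a).card + (XC a).card := by exact_mod_cast UC_card a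
  have hX0 : (0 : ℚ) ≤ (XC a).card := by positivity
  by_cases h3 : 3 ≤ (NC a).card
  · have h3' : (3 : ℚ) ≤ (NC a).card := by exact_mod_cast h3
    rw [hU]
    linarith
  · have hN : (NC a).card = 2 := by omega
    have hN' : ((NC a).card : ℚ) = 2 := by exact_mod_cast hN
    by_cases hX : (XC a).card ≤ 1
    · obtain ⟨y₁, y₂, hne, hy⟩ := Finset.card_eq_two.1 hN
      have m1 : y₁ ∈ NC a := by rw [hy]; simp
      have m2 : y₂ ∈ NC a := by rw [hy]; simp
      have T : TwoCov a y₁ y₂ := ⟨ha, (mem_NC.1 m1).1, (mem_NC.1 m2).1, hne, (mem_NC.1 m1).2,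
        (mem_NC.1 m2).2, fun e h1 h2 => by
          have : e ∈ NC a := mem_NC.2 ⟨h1, h2⟩
          rw [hy] at this
          simpa using this⟩
      have hs := T.share_sum H hX
      have hX1 : 1 ≤ (XC a).card := by
        by_contra h0
        have h0' : (XC a).card = 0 := by omega
        have hno : ∀ c, a ⋖ c → ¬ IsMax c := by
          intro c hc hcm
          have : c ∈ XC a := mem_XC.2 ⟨hc, hcm⟩
          rw [Finset.card_eq_zero.1 h0'] at this
          simp at this
        refine T.not_twin H (fun v => ⟨T.above H ?_ v, T.symm.above H ?_ v⟩)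
        · intro c hc hcm; exact absurd hcm (hno c hc)
        · intro c hc hcm; exact absurd hcm (hno c hc)
      have hX1' : (1 : ℚ) ≤ (XC a).card := by exact_mod_cast hX1
      have : ∑ y ∈ NC a, share y = share y₁ + share y₂ := by
        rw [hy, Finset.sum_pair hne]
      rw [hU, this]
      linarith
    · have hX2 : 2 ≤ (XC a).card := by omega
      have hX2' : (2 : ℚ) ≤ (XC a).card := by exact_mod_cast hX2
      rw [hU]
      rw [hN'] at hsum ⊢
      linarith

/-- the lower half of the count. -/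
lemma NoRem.lower (H : NoRem α) (hcard : ∃ x y : α, x ≠ y) :
    0 ≤ ∑ y : α, (if IsMin y then ((UC y).card : ℚ) - 4 else
      if IsMax y then 0 else ((LC y).card : ℚ) - 2) := by
  -- the middle points
  have hmid : ∀ y : α, ¬ IsMin y → ¬ IsMax y →
      ∑ a ∈ MC y, share y ≤ ((LC y).card : ℚ) - 2 := by
    intro y hy _
    rw [Finset.sum_const, nsmul_eq_mul]
    have h2 := H.lc_two hy
    have h2' : (2 : ℚ) ≤ (LC y).card := by exact_mod_cast h2
    by_cases h0 : (MC y).card = 0
    · rw [h0]; simp; linarith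
    · have h0' : ((MC y).card : ℚ) ≠ 0 := by exact_mod_cast h0
      unfold share
      rw [mul_div_cancel₀ _ h0']
  let M : Finset α := Finset.univ.filter (fun y => ¬ IsMin y ∧ ¬ IsMax y)
  let A : Finset α := Finset.univ.filter (fun y => IsMin y)
  have hswap : ∑ y ∈ M, ∑ a ∈ MC y, share y = ∑ a ∈ A, ∑ y ∈ NC a, share y := by
    apply Finset.sum_comm'
    intro y a
    simp only [M, A, Finset.mem_filter, Finset.mem_univ, true_and, mem_MC, mem_NC]
    constructor
    · rintro ⟨⟨h1, h2⟩, h3, h4⟩
      exact ⟨⟨h3, h2⟩, h4⟩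
    · rintro ⟨⟨h3, h2⟩, h4⟩
      exact ⟨⟨fun hm => h3.1.not_ge (hm h3.1.le), h2⟩, h3, h4⟩
  have h1 : ∑ y ∈ M, ∑ a ∈ MC y, share y ≤ ∑ y ∈ M, (((LC y).card : ℚ) - 2) := by
    apply Finset.sum_le_sum
    intro y hy
    simp only [M, Finset.mem_filter, Finset.mem_univ, true_and] at hy
    exact hmid y hy.1 hy.2
  have h2 : 0 ≤ ∑ a ∈ A, ((∑ y ∈ NC a, share y) + ((UC a).card : ℚ) - 4) := by
    apply Finset.sum_nonneg
    intro a ha
    simp only [A, Finset.mem_filter, Finset.mem_univ, true_and] at ha
    exact H.charge hcard ha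
  have h3 : ∑ a ∈ A, ((∑ y ∈ NC a, share y) + ((UC a).card : ℚ) - 4) =
      ∑ a ∈ A, ∑ y ∈ NC a, share y + ∑ a ∈ A, (((UC a).card : ℚ) - 4) := by
    rw [← Finset.sum_add_distrib]
    apply Finset.sum_congr rfl
    intro a _
    ring
  have h4 : ∑ y : α, (if IsMin y then ((UC y).card : ℚ) - 4 else
      if IsMax y then 0 else ((LC y).card : ℚ) - 2) =
      ∑ a ∈ A, (((UC a).card : ℚ) - 4) + ∑ y ∈ M, (((LC y).card : ℚ) - 2) := by
    simp only [A, M, Finset.sum_filter]
    rw [← Finset.sum_add_distrib]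
    apply Finset.sum_congr rfl
    intro y _
    by_cases hm : IsMin y
    · simp [hm]
    · by_cases hx : IsMax y
      · simp [hm, hx]
      · simp [hm, hx]
  rw [h4]
  rw [h3, ← hswap] at h2
  linarith

/-- the upper half of the count. -/
lemma NoRem.upper (H : NoRem α) (hcard : ∃ x y : α, x ≠ y) :
    0 ≤ ∑ y : α, (if IsMax y then ((LC y).card : ℚ) - 4 else
      if IsMin y then 0 else ((UC y).card : ℚ) - 2) := by
  obtain ⟨x, y, hxy⟩ := hcard
  have h := H.dual.lower ⟨OrderDual.toDual x, OrderDual.toDual y,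
    fun e => hxy (OrderDual.toDual.injective e)⟩
  rw [← Equiv.sum_comp OrderDual.toDual] at h
  refine h.trans_eq ?_
  apply Finset.sum_congr rfl
  intro z _
  have e1 : (UC (OrderDual.toDual z)).card = (LC z).card := by
    refine Finset.card_bij (fun w _ => OrderDual.ofDual w) ?_ ?_ ?_
    · intro w hw
      rw [mem_UC] at hw
      rw [mem_LC]
      exact toDual_covBy_toDual_iff.1 hw
    · intro w _ w' _ h'
      exact OrderDual.ofDual.injective h'
    · intro w hw
      rw [mem_LC] at hw
      exact ⟨OrderDual.toDual w, mem_UC.2 (toDual_covBy_toDual_iff.2 hw), rfl⟩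
  have e2 : (LC (OrderDual.toDual z)).card = (UC z).card := by
    refine Finset.card_bij (fun w _ => OrderDual.ofDual w) ?_ ?_ ?_
    · intro w hw
      rw [mem_LC] at hw
      rw [mem_UC]
      exact toDual_covBy_toDual_iff.1 hw
    · intro w _ w' _ h'
      exact OrderDual.ofDual.injective h'
    · intro w hw
      rw [mem_UC] at hw
      exact ⟨OrderDual.toDual w, mem_LC.2 (toDual_covBy_toDual_iff.2 hw), rfl⟩
  have e3 : IsMin (OrderDual.toDual z) ↔ IsMax z := isMin_toDual_iff
  have e4 : IsMax (OrderDual.toDual z) ↔ IsMin z := isMax_toDual_iff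
  rw [e1, e2]
  simp only [e3, e4]

/-- the number of cover pairs counted by the lower covers. -/
lemma card_covers_lc :
    ((Finset.univ.filter (fun p : α × α => p.1 ⋖ p.2)).card : ℚ) = ∑ y : α, ((LC y).card : ℚ) := by
  rw [Finset.card_eq_sum_card_fiberwise (f := Prod.snd) (t := Finset.univ) (fun _ _ => by simp)]
  push_cast
  apply Finset.sum_congr rfl
  intro y _
  norm_cast
  refine Finset.card_bij (fun p _ => p.1) ?_ ?_ ?_
  · intro p hp
    simp only [Finset.mem_filter, Finset.mem_univ, true_and] at hp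
    rw [mem_LC, ← hp.2]
    exact hp.1
  · intro p hp q hq h
    simp only [Finset.mem_filter, Finset.mem_univ, true_and] at hp hq
    exact Prod.ext h (hp.2.trans hq.2.symm)
  · intro z hz
    rw [mem_LC] at hz
    exact ⟨(z, y), by simp [hz], rfl⟩

/-- the number of cover pairs counted by the upper covers. -/
lemma card_covers_uc :
    ((Finset.univ.filter (fun p : α × α => p.1 ⋖ p.2)).card : ℚ) = ∑ y : α, ((UC y).card : ℚ) := by
  rw [Finset.card_eq_sum_card_fiberwise (f := Prod.fst) (t := Finset.univ) (fun _ _ => by simp)]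
  push_cast
  apply Finset.sum_congr rfl
  intro y _
  norm_cast
  refine Finset.card_bij (fun p _ => p.2) ?_ ?_ ?_
  · intro p hp
    simp only [Finset.mem_filter, Finset.mem_univ, true_and] at hp
    rw [mem_UC, ← hp.2]
    exact hp.1
  · intro p hp q hq h
    simp only [Finset.mem_filter, Finset.mem_univ, true_and] at hp hq
    exact Prod.ext (hp.2.trans hq.2.symm) h
  · intro z hz
    rw [mem_UC] at hz
    exact ⟨(y, z), by simp [hz], rfl⟩

/-- A poset without removable pairs has at least twice as many cover pairs as points. -/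
lemma NoRem.covers (H : NoRem α) (hcard : ∃ x y : α, x ≠ y) :
    2 * Fintype.card α ≤ (Finset.univ.filter (fun p : α × α => p.1 ⋖ p.2)).card := by
  have h1 := H.lower hcard
  have h2 := H.upper hcard
  have hmm : ∀ y : α, ¬ (IsMin y ∧ IsMax y) := by
    rintro y ⟨hm, hx⟩
    obtain ⟨u, hu⟩ := H.exists_above hcard hm
    exact hu.not_ge (hx hu.le)
  have h3 : ∑ y : α, (if IsMin y then ((UC y).card : ℚ) - 4 else
      if IsMax y then 0 else ((LC y).card : ℚ) - 2) +
      ∑ y : α, (if IsMax y then ((LC y).card : ℚ) - 4 else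
      if IsMin y then 0 else ((UC y).card : ℚ) - 2) =
      ∑ y : α, ((LC y).card : ℚ) + ∑ y : α, ((UC y).card : ℚ) - 4 * Fintype.card α := by
    have h4 : (4 * Fintype.card α : ℚ) = ∑ _y : α, (4 : ℚ) := by
      rw [Finset.sum_const, nsmul_eq_mul, Finset.card_univ]; ring
    rw [h4, ← Finset.sum_add_distrib, ← Finset.sum_add_distrib, ← Finset.sum_sub_distrib]
    apply Finset.sum_congr rfl
    intro y _
    by_cases hm : IsMin y
    · have hx : ¬ IsMax y := fun hx => hmm y ⟨hm, hx⟩
      have h0 : (LC y).card = 0 := by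
        rw [Finset.card_eq_zero]
        apply Finset.eq_empty_of_forall_notMem
        intro z hz
        rw [mem_LC] at hz
        exact hz.1.not_ge (hm hz.1.le)
      simp [hm, hx, h0]
    · by_cases hx : IsMax y
      · have h0 : (UC y).card = 0 := by
          rw [Finset.card_eq_zero]
          apply Finset.eq_empty_of_forall_notMem
          intro z hz
          rw [mem_UC] at hz
          exact hz.1.not_ge (hx hz.1.le)
        simp [hm, hx, h0]
      · simp only [hm, hx, if_false]
        ring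
  rw [← card_covers_lc, ← card_covers_uc] at h3
  have h5 : (4 * Fintype.card α : ℚ) ≤
      2 * ((Finset.univ.filter (fun p : α × α => p.1 ⋖ p.2)).card : ℚ) := by linarith
  have h6 : 4 * Fintype.card α ≤ 2 * (Finset.univ.filter (fun p : α × α => p.1 ⋖ p.2)).card := by
    exact_mod_cast h5
  omega

end Pool.Agent.Helper419_RPC
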