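import Pool.Agent.Helper419_RPC.Facts4

/-!
# The cover relation of a poset without removable pairs
-/

set_option autoImplicit false

namespace Pool.Agent.Helper419_RPC

open Set

variable {α : Type*} [PartialOrder α] [Finite α]

omit [Finite α] in
lemma lt_of_min_max {a c : α} (h : a ≤ c) (hne : a ≠ c) : a < c := lt_of_le_of_ne h hne

/-- below `y` and above `z` there is a point covered by `y`. -/
lemma exists_lc {z y : α} (h : z < y) : ∃ e, e ⋖ y ∧ z ≤ e := by
  obtain ⟨e, hze, he⟩ := Set.Finite.exists_le_maximal (Set.toFinite ({w : α | w < y} : Set α))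
    (show z ∈ ({w : α | w < y} : Set α) from h)
  refine ⟨e, ⟨he.1, ?_⟩, hze⟩
  intro w hw hwy
  exact hw.not_ge (he.2 hwy hw.le)

/-- above `z` and below `y` there is a point covering `z`. -/
lemma exists_uc {z y : α} (h : z < y) : ∃ e, z ⋖ e ∧ e ≤ y := by
  obtain ⟨e, hey, he⟩ := Set.Finite.exists_le_minimal (Set.toFinite ({w : α | z < w} : Set α))
    (show y ∈ ({w : α | z < w} : Set α) from h)
  refine ⟨e, ⟨he.1, ?_⟩, hey⟩
  intro w hw hwe
  exact hwe.not_ge (he.2 hw hwe.le)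

/-- `D(y) \ {a}` has no greatest point. -/
lemma NoRem.no_greatest (H : NoRem α) {a y z : α} (ha : IsMin a) (hay : a < y) (hzy : z < y)
    (hza : z ≠ a) : ∃ w, w < y ∧ w ≠ a ∧ ¬ w ≤ z := by
  by_contra hcon
  push Not at hcon
  obtain ⟨t, ht, h, hn⟩ := H a y hay.ne
  exact hn (rem_greatest_lower ha hay hzy hza hcon ht h)

/-- a point is not the only lower cover of another point. -/
lemma NoRem.unique_lower (H : NoRem α) {z y : α} (hzy : z < y) (h : ∀ w, w < y → w ≤ z) :
    False := by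
  obtain ⟨a, ha, haz⟩ := exists_min_le z
  have hy : ¬ IsMin y := fun hm => hzy.not_ge (hm hzy.le)
  rcases haz.lt_or_eq with h' | h'
  · obtain ⟨w, hw, -, hwz⟩ := H.no_greatest ha (haz.trans_lt hzy) hzy h'.ne'
    exact hwz (h w hw)
  · obtain ⟨b, hb, hba, -, hby⟩ := H.three_below hy a a
    have := h b hby
    rw [← h'] at this
    exact hba (this.antisymm (ha this))

/-- a point is not the only upper cover of another point. -/
lemma NoRem.unique_upper (H : NoRem α) {z y : α} (hzy : z < y) (h : ∀ w, z < w → y ≤ w) :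
    False :=
  H.dual.unique_lower (z := OrderDual.toDual y) (y := OrderDual.toDual z)
    (OrderDual.toDual_lt_toDual.2 hzy) (fun w hw => h (OrderDual.ofDual w) hw)

/-- the points above a minimal point are not all above another minimal point; the form used
below. -/
lemma NoRem.not_nested' (H : NoRem α) {a b : α} (ha : IsMin a) (hb : IsMin b) (hab : a ≠ b)
    (h : ∀ e, a ⋖ e → ¬ IsMax e → b ≤ e) : False := by
  obtain ⟨u, hau, hbu⟩ := H.not_nested ha hb hab
  obtain ⟨e, hae, heu⟩ := exists_uc hau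
  have hu : ¬ IsMin u := fun hm => hau.not_ge (hm hau.le)
  have hbne : b ≠ u := fun h' => hu (h' ▸ hb)
  by_cases hemax : IsMax e
  · have : e = u := heu.antisymm (hemax heu)
    exact hbu (lt_of_le_of_ne (H.min_le_max hb (this ▸ hemax)) hbne)
  · exact hbu (lt_of_le_of_ne ((h e hae hemax).trans heu) hbne)

/-- data of a minimal point with two upper covers which are not maximal. -/
structure TwoCov (a y₁ y₂ : α) : Prop where
  min : IsMin a
  cov₁ : a ⋖ y₁
  cov₂ : a ⋖ y₂
  ne : y₁ ≠ y₂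
  nmax₁ : ¬ IsMax y₁
  nmax₂ : ¬ IsMax y₂
  all : ∀ e, a ⋖ e → ¬ IsMax e → e = y₁ ∨ e = y₂

omit [Finite α] in
lemma TwoCov.symm {a y₁ y₂ : α} (T : TwoCov a y₁ y₂) : TwoCov a y₂ y₁ :=
  ⟨T.min, T.cov₂, T.cov₁, T.ne.symm, T.nmax₂, T.nmax₁, fun e h1 h2 => (T.all e h1 h2).symm⟩

/-- the only common lower bound is `a`. -/
lemma TwoCov.inter {a y₁ y₂ : α} (T : TwoCov a y₁ y₂) (H : NoRem α) {w : α} (h1 : w < y₁)
    (h2 : w < y₂) : w = a := by
  by_contra hwa
  have key : ∀ b, IsMin b → b ≤ w → b = a := by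
    intro b hb hbw
    by_contra hba
    refine H.not_nested' T.min hb (fun e => hba e.symm) ?_
    intro e he hemax
    rcases T.all e he hemax with h' | h'
    · rw [h']; exact (hbw.trans_lt h1).le
    · rw [h']; exact (hbw.trans_lt h2).le
  obtain ⟨b, hb, hbw⟩ := exists_min_le w
  have hba := key b hb hbw
  have haw : a < w := lt_of_le_of_ne (hba ▸ hbw) (fun e => hwa e.symm)
  have hw : ¬ IsMin w := fun hm => haw.not_ge (hm haw.le)
  obtain ⟨b', hb', hb'a, -, hb'w⟩ := H.three_below hw a a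
  exact hb'a (key b' hb' hb'w.le)

omit [Finite α] in
lemma TwoCov.not_le {a y₁ y₂ : α} (T : TwoCov a y₁ y₂) : ¬ y₁ ≤ y₂ := by
  intro h
  have : y₁ < y₂ := lt_of_le_of_ne h T.ne
  exact T.cov₂.2 T.cov₁.1 this

/-- the two covers are not twins. -/
lemma TwoCov.not_twin {a y₁ y₂ : α} (T : TwoCov a y₁ y₂) (H : NoRem α)
    (htw : ∀ v, y₁ < v ↔ y₂ < v) : False := by
  have hy2 : ¬ IsMin y₂ := fun hm => T.cov₂.1.not_ge (hm T.cov₂.1.le)
  have hy1 : ¬ IsMin y₁ := fun hm => T.cov₁.1.not_ge (hm T.cov₁.1.le)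
  obtain ⟨b, hb, hba, -, hby⟩ := H.three_below hy2 a a
  have hb1 : ¬ b ≤ y₁ := by
    intro h
    rcases h.lt_or_eq with h' | h'
    · exact hba (T.inter H h' hby)
    · exact hy1 (h' ▸ hb)
  obtain ⟨t, ht, h, hn⟩ := H b y₁ (fun e => hb1 e.le)
  exact hn (rem_twin hb hb1 T.ne.symm (fun e => hy2 (e ▸ hb)) htw ht h)

/-- the comparison of the two covers. -/
lemma TwoCov.above {a y₁ y₂ : α} (T : TwoCov a y₁ y₂) (H : NoRem α)
    (hc : ∀ c, a ⋖ c → IsMax c → ∀ w, w < y₁ → w ≤ c) : ∀ v, y₁ < v → y₂ < v := by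
  intro v hv
  obtain ⟨t, ht, h, hn⟩ := H a y₁ T.cov₁.1.ne
  obtain ⟨f, hinj, hmon, hsep⟩ := real_data h
  have key : ∀ i, ∃ w, w < y₁ ∧ w ≠ a ∧ f i y₂ < f i w := by
    intro i
    by_contra hno
    push Not at hno
    apply hn
    refine rem_min_above T.min T.cov₁.1 f hinj hmon hsep i ?_
    intro w u hwy hwa haw hau huy hyu hlt
    obtain ⟨e, hae, heu⟩ := exists_uc hau
    have huy1 : u ≠ y₁ := fun e => huy e.le
    by_cases hemax : IsMax e
    · have : e = u := heu.antisymm (hemax heu)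
      have hwu : w ≤ u := hc u (this ▸ hae) (this ▸ hemax) w hwy
      have := hmon i w u hwa hwy.ne hau.ne' huy1 hwu
      omega
    · rcases T.all e hae hemax with h' | h'
      · exact hyu (h' ▸ heu)
      · have h1 := hno w hwy hwa
        have h2 := hmon i y₂ u T.cov₂.1.ne' T.ne.symm hau.ne' huy1 (h' ▸ heu)
        omega
  have hva : v ≠ a := (T.cov₁.1.trans hv).ne'
  have hle : y₂ ≤ v := by
    by_contra hcon
    obtain ⟨i, hi⟩ := hsep y₂ v T.cov₂.1.ne' T.ne.symm hva hv.ne' hcon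
    obtain ⟨w, hw, hwa, hlt⟩ := key i
    have := hmon i w v hwa hw.ne hva hv.ne' (hw.trans hv).le
    omega
  refine lt_of_le_of_ne hle ?_
  intro e
  exact T.not_le (e ▸ hv.le)

/-- The mixed case: `y₁` has only minimal points below it, `y₂` has the three lower covers
`a`, `a₂` (minimal) and `x` (not minimal), and `c` is the only maximal upper cover of `a`. -/
lemma TwoCov.mixed {a y₁ y₂ c a₂ x : α} (T : TwoCov a y₁ y₂) (H : NoRem α)
    (hc : IsMax c) (hconly : ∀ c', a ⋖ c' → IsMax c' → c' = c)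
    (hy₁ : ∀ z, z < y₁ → IsMin z)
    (ha₂ : IsMin a₂) (ha₂y : a₂ ⋖ y₂) (ha₂a : a₂ ≠ a) (hx : ¬ IsMin x) (hxy : x ⋖ y₂)
    (hlow : ∀ e, e ⋖ y₂ → e = a ∨ e = a₂ ∨ e = x) : False := by
  have hminle : ∀ w, IsMin w → w ≤ c := fun w hw => H.min_le_max hw hc
  have U12 : ∀ v, y₁ < v → y₂ < v := by
    refine T.above H ?_
    intro c' hac' hc' w hw
    rw [hconly c' hac' hc']
    exact hminle w (hy₁ w hw)
  have hbelow : ∀ w, w < y₂ → w ≤ a ∨ w ≤ a₂ ∨ w ≤ x := by
    intro w hw
    obtain ⟨e, he, hwe⟩ := exists_lc hw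
    rcases hlow e he with h' | h' | h'
    · left; rw [← h']; exact hwe
    · right; left; rw [← h']; exact hwe
    · right; right; rw [← h']; exact hwe
  have hxc : ¬ x ≤ c := by
    intro hxc
    have U21 : ∀ v, y₂ < v → y₁ < v := by
      refine T.symm.above H ?_
      intro c' hac' hc' w hw
      rw [hconly c' hac' hc']
      rcases hbelow w hw with h' | h' | h'
      · exact h'.trans (hminle a T.min)
      · exact h'.trans (hminle a₂ ha₂)
      · exact h'.trans hxc
    exact T.not_twin H (fun v => ⟨U12 v, U21 v⟩)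
  have hy2c : y₂ ≠ c := fun e => T.nmax₂ (e ▸ hc)
  have hxa : x ≠ a := fun e => hx (e ▸ T.min)
  have hxa₂ : x ≠ a₂ := fun e => hx (e ▸ ha₂)
  -- the pair `c`, `x`
  obtain ⟨z, hzc, hzx, hxz, hz⟩ : ∃ z, z ≠ c ∧ ¬ z ≤ x ∧ ¬ x ≤ z ∧
      ∀ v, v ≠ x → v ≠ c → (∀ e, e < x → e ≤ v) → z < v := by
    by_contra hcon
    push Not at hcon
    obtain ⟨t, ht, h, hn⟩ := H c x (fun e => hxc e.ge)
    exact hn (rem_low_insert_max hc hxc hcon ht h)
  have hzy : z < y₂ := hz y₂ hxy.1.ne' hy2c (fun e he => (he.trans hxy.1).le)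
  have hz' : z = a ∨ z = a₂ := by
    rcases hbelow z hzy with h' | h' | h'
    · left; exact h'.antisymm (T.min h')
    · right; exact h'.antisymm (ha₂ h')
    · exact absurd h' hzx
  rcases hz' with hza | hza
  · -- `x` has only one upper cover
    refine H.unique_upper hxy.1 ?_
    intro v hv
    have hvc : v ≠ c := fun e => hxc (e ▸ hv.le)
    have hav : a < v := by
      rw [← hza]
      exact hz v hv.ne' hvc (fun e he => (he.trans hv).le)
    obtain ⟨e, hae, hev⟩ := exists_uc hav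
    by_cases hemax : IsMax e
    · have h1 : e = c := hconly e hae hemax
      have h2 : e = v := hev.antisymm (hemax hev)
      exact absurd (h2.symm.trans h1) hvc
    · rcases T.all e hae hemax with h' | h'
      · rw [h'] at hev
        rcases hev.lt_or_eq with h2 | h2
        · exact (U12 v h2).le
        · exact absurd (hy₁ x (h2 ▸ hv)) hx
      · rw [← h']; exact hev
  · have hxv : ∀ v, x < v → a₂ < v := by
      intro v hv
      have hvc : v ≠ c := fun e => hxc (e ▸ hv.le)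
      rw [← hza]
      exact hz v hv.ne' hvc (fun e he => (he.trans hv).le)
    obtain ⟨t, ht, h, hn⟩ := H x y₂ hxy.1.ne
    obtain ⟨f, hinj, hmon, hsep⟩ := real_data h
    have hay2 : a ≠ y₂ := T.cov₂.1.ne
    have ha2y2 : a₂ ≠ y₂ := ha₂y.1.ne
    have ha₂le : ¬ a₂ ≤ a := fun h' => ha₂a (h'.antisymm (T.min h'))
    obtain ⟨i, hi⟩ := hsep a₂ a hxa₂.symm ha2y2 hxa.symm hay2 ha₂le
    apply hn
    refine rem_comp hxy.1 f hinj hmon hsep i ?_
    intro w u hwy hwx hxw hxu huy hyu hlt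
    have h1 := hxv u hxu
    have h2 := hmon i a₂ u hxa₂.symm ha2y2 hxu.ne' (fun e => huy e.le) h1.le
    rcases hbelow w hwy with h' | h' | h'
    · have hw : w = a := h'.antisymm (T.min h')
      rw [hw] at hlt
      omega
    · have hw : w = a₂ := h'.antisymm (ha₂ h')
      rw [hw] at hlt
      omega
    · exact hwx h'

end Pool.Agent.Helper419_RPC
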