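import Pool.Agent.Helper419_RPC.FewMin

/-!
# Duality for posets without removable pairs
-/

set_option autoImplicit false

namespace Pool.Agent.Helper419_RPC

open Set

variable {α : Type*} [PartialOrder α] [Finite α]

/-- A realizer of the dual order. -/
lemma Rz.dual {S : Set α} {t : ℕ} (h : Rz S t) : Rz (α := αᵒᵈ) (OrderDual.ofDual ⁻¹' S) t := by
  classical
  obtain ⟨f, hinj, hord⟩ := h
  have := Fintype.ofFinite α
  let M : ℕ := Finset.univ.sup fun p : Fin t × α => f p.1 p.2
  have hM : ∀ i a, f i a ≤ M := by
    intro i a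
    exact Finset.le_sup (f := fun p : Fin t × α => f p.1 p.2) (Finset.mem_univ (i, a))
  refine ⟨fun i a => M - f i (OrderDual.ofDual a), ?_, ?_⟩
  · intro i a ha b hb hab
    have h1 := hM i (OrderDual.ofDual a)
    have h2 := hM i (OrderDual.ofDual b)
    have h3 : f i (OrderDual.ofDual a) = f i (OrderDual.ofDual b) := by
      simp only at hab; omega
    exact OrderDual.ofDual.injective (hinj i ha hb h3)
  · intro a ha b hb
    rw [← OrderDual.ofDual_le_ofDual]
    refine (hord (OrderDual.ofDual b) hb (OrderDual.ofDual a) ha).trans ?_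
    constructor
    · intro h i
      have h0 := h i
      change M - f i (OrderDual.ofDual a) ≤ M - f i (OrderDual.ofDual b)
      omega
    · intro h i
      have h0 : M - f i (OrderDual.ofDual a) ≤ M - f i (OrderDual.ofDual b) := h i
      have h1 := hM i (OrderDual.ofDual a)
      have h2 := hM i (OrderDual.ofDual b)
      omega

/-- The dual of a poset without removable pairs. -/
lemma NoRem.dual (H : NoRem α) : NoRem αᵒᵈ := by
  intro x y hxy
  obtain ⟨t, ht, h, hn⟩ := H (OrderDual.ofDual x) (OrderDual.ofDual y)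
    (fun e => hxy (OrderDual.ofDual.injective e))
  refine ⟨t, ht, ?_, ?_⟩
  · have := h.dual
    have e : ({x, y}ᶜ : Set αᵒᵈ) =
        OrderDual.ofDual ⁻¹' ({OrderDual.ofDual x, OrderDual.ofDual y}ᶜ : Set α) := by
      ext z
      rfl
    rw [e]
    exact this
  · intro h'
    apply hn
    have := Rz.dual h'
    exact this

/-- There are five maximal points. -/
lemma NoRem.five_max (H : NoRem α) (hcard : ∃ x y : α, x ≠ y) :
    5 ≤ ({a : α | IsMax a} : Set α).ncard := by
  obtain ⟨x, y, hxy⟩ := hcard
  have := H.dual.five_min ⟨OrderDual.toDual x, OrderDual.toDual y, fun e => hxy (OrderDual.toDual.injective e)⟩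
  have h2 : ({a : αᵒᵈ | IsMin a} : Set αᵒᵈ) = OrderDual.ofDual ⁻¹' ({a : α | IsMax a} : Set α) := by
    ext a
    exact ⟨fun h b hb => h hb, fun h b hb => h hb⟩
  rw [h2] at this
  exact this

end Pool.Agent.Helper419_RPC
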