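import Pool.Agent.Helper419_RPC.Basic

/-!
# Situations in which two points are removable
-/

set_option autoImplicit false

namespace Pool.Agent.Helper419_RPC

open Set

variable {α : Type*} [PartialOrder α] [Finite α]

/-- The general construction: `B o` are the block numbers, inside a block one uses `f (F o)`. -/
lemma rem_pair {x y : α} {t : ℕ} (f : Fin t → α → ℕ)
    (hinj : ∀ i a b, a ≠ x → a ≠ y → b ≠ x → b ≠ y → f i a = f i b → a = b)
    (hmon : ∀ i a b, a ≠ x → a ≠ y → b ≠ x → b ≠ y → a ≤ b → f i a ≤ f i b)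
    (B : Option (Fin t) → α → ℕ) (F : Option (Fin t) → Fin t)
    (hx1 : ∀ o z, z ≠ x → B o z ≠ B o x) (hy1 : ∀ o z, z ≠ y → B o z ≠ B o y)
    (hm : ∀ o a b, a < b → B o a ≤ B o b)
    (hsx : ∀ z, ¬ x ≤ z → ∃ o, B o z < B o x) (hsx' : ∀ z, ¬ z ≤ x → ∃ o, B o x < B o z)
    (hsy : ∀ z, ¬ y ≤ z → ∃ o, B o z < B o y) (hsy' : ∀ z, ¬ z ≤ y → ∃ o, B o y < B o z)
    (hs : ∀ a b, a ≠ x → a ≠ y → b ≠ x → b ≠ y → ¬ a ≤ b →
      ∃ o, B o b < B o a ∨ (B o b = B o a ∧ f (F o) b < f (F o) a)) :
    Rz (Set.univ : Set α) (t + 1) := by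
  classical
  refine rz_of_blocks (ι := Option (Fin t)) (by simp) B (fun o z => f (F o) z) ?_ ?_ ?_
  · intro o a b h1 h2
    by_contra hab
    have ha : a ≠ x := fun e => hx1 o b (fun e' => hab (e.trans e'.symm)) (by rw [← h1, e])
    have hb : b ≠ x := fun e => hx1 o a (fun e' => hab (e'.trans e.symm)) (by rw [h1, e])
    have ha2 : a ≠ y := fun e => hy1 o b (fun e' => hab (e.trans e'.symm)) (by rw [← h1, e])
    have hb2 : b ≠ y := fun e => hy1 o a (fun e' => hab (e'.trans e.symm)) (by rw [h1, e])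
    exact hab (hinj (F o) a b ha ha2 hb hb2 h2)
  · intro o a b hlt
    rcases (hm o a b hlt).lt_or_eq with h | h
    · exact Or.inl h
    · right
      refine ⟨h, ?_⟩
      have ha : a ≠ x := fun e => hx1 o b (fun e' => hlt.ne (e.trans e'.symm)) (by rw [← h, e])
      have hb : b ≠ x := fun e => hx1 o a (fun e' => hlt.ne (e'.trans e.symm)) (by rw [h, e])
      have ha2 : a ≠ y := fun e => hy1 o b (fun e' => hlt.ne (e.trans e'.symm)) (by rw [← h, e])
      have hb2 : b ≠ y := fun e => hy1 o a (fun e' => hlt.ne (e'.trans e.symm)) (by rw [h, e])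
      exact hmon (F o) a b ha ha2 hb hb2 hlt.le
  · intro a b hab
    by_cases ha : a = x
    · subst ha
      obtain ⟨o, ho⟩ := hsx b hab
      exact ⟨o, Or.inl ho⟩
    by_cases hb : b = x
    · subst hb
      obtain ⟨o, ho⟩ := hsx' a hab
      exact ⟨o, Or.inl ho⟩
    by_cases ha2 : a = y
    · subst ha2
      obtain ⟨o, ho⟩ := hsy b hab
      exact ⟨o, Or.inl ho⟩
    by_cases hb2 : b = y
    · subst hb2
      obtain ⟨o, ho⟩ := hsy' a hab
      exact ⟨o, Or.inl ho⟩
    exact hs a b ha ha2 hb hb2 hab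

/-- Hiraguchi: an incomparable pair of a minimal and a maximal point. -/
lemma rem_min_max {x y : α} (hx : IsMin x) (hy : IsMax y) (hxy : ¬ x ≤ y) {t : ℕ} (ht : 1 ≤ t)
    (h : Rz ({x, y}ᶜ : Set α) t) : Rz (Set.univ : Set α) (t + 1) := by
  classical
  obtain ⟨f, hinj, hmon, hsep⟩ := real_data h
  have hne : x ≠ y := fun e => hxy e.le
  let i0 : Fin t := ⟨0, ht⟩
  have hx' : ∀ z, ¬ z < x := fun z hz => hz.not_ge (hx hz.le)
  have hy' : ∀ z, ¬ y < z := fun z hz => hz.not_ge (hy hz.le)
  have tr : ∀ a b c : α, a < b → b < c → a < c := fun a b c => lt_trans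
  have irr : ∀ a : α, ¬ a < a := fun a => lt_irrefl a
  have le_lt : ∀ a b : α, a ≤ b ↔ a < b ∨ a = b := fun a b => le_iff_lt_or_eq
  rw [le_lt] at hxy
  refine rem_pair f hinj hmon
    (fun o z => match o with
      | none => if z = x then 3 else if z = y then 1 else if z < y then 0
          else if x < z then 4 else 2
      | some _ => if z = x then 0 else if z = y then 2 else 1)
    (fun o => match o with
      | none => i0
      | some i => i) ?_ ?_ ?_ ?_ ?_ ?_ ?_ ?_
  · intro o z hz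
    rcases o with _ | i <;> simp only <;> grind
  · intro o z hz
    rcases o with _ | i <;> simp only <;> grind
  · intro o a b hab
    rcases o with _ | i <;> simp only <;> grind
  · intro z hz
    refine ⟨none, ?_⟩
    simp only
    grind
  · intro z hz
    refine ⟨some i0, ?_⟩
    simp only
    grind
  · intro z hz
    refine ⟨some i0, ?_⟩
    simp only
    grind
  · intro z hz
    refine ⟨none, ?_⟩
    simp only
    grind
  · intro a b ha ha2 hb hb2 hab
    obtain ⟨i, hi⟩ := hsep a b ha ha2 hb hb2 hab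
    refine ⟨some i, Or.inr ?_⟩
    simp only
    grind

end Pool.Agent.Helper419_RPC
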