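import Pool.Agent.Helper419_RPC.Facts

/-!
# More situations in which two points are removable
-/

set_option autoImplicit false

namespace Pool.Agent.Helper419_RPC

open Set

variable {α : Type*} [PartialOrder α] [Finite α]

/-- A point `y` with exactly one point `a` below it, and that point. -/
lemma rem_unique_lower {a y : α} (hay : a < y) (hy : ∀ z, z < y → z = a)
    {t : ℕ} (ht : 1 ≤ t) (h : Rz ({a, y}ᶜ : Set α) t) : Rz (Set.univ : Set α) (t + 1) := by
  classical
  obtain ⟨f, hinj, hmon, hsep⟩ := real_data h
  let i0 : Fin t := ⟨0, ht⟩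
  have hx' : ∀ z, ¬ z < a := fun z hz => by
    have := hy z (hz.trans hay); subst this; exact lt_irrefl _ hz
  have tr : ∀ a b c : α, a < b → b < c → a < c := fun a b c => lt_trans
  have irr : ∀ a : α, ¬ a < a := fun a => lt_irrefl a
  have le_lt : ∀ a b : α, a ≤ b ↔ a < b ∨ a = b := fun a b => le_iff_lt_or_eq
  refine rem_pair f hinj hmon
    (fun o z => match o with
      | none => if z = a then 1 else if z = y then 3 else if y < z then 4
          else if a < z then 2 else 0
      | some _ => if z = a then 0 else if z = y then 1 else 2)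
    (fun o => match o with
      | none => i0
      | some i => i) ?_ ?_ ?_ ?_ ?_ ?_ ?_ ?_
  · intro o z hz
    rcases o with _ | i <;> simp only <;> grind
  · intro o z hz
    rcases o with _ | i <;> simp only <;> grind
  · intro o a b hab
    rcases o with _ | i <;> simp only <;> grind
  · intro z hz
    refine ⟨none, ?_⟩
    simp only
    grind
  · intro z hz
    refine ⟨some i0, ?_⟩
    simp only
    grind
  · intro z hz
    by_cases hza : z = a
    · refine ⟨some i0, ?_⟩
      simp only
      grind
    · refine ⟨none, ?_⟩
      simp only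
      grind
  · intro z hz
    refine ⟨some i0, ?_⟩
    simp only
    grind
  · intro a b ha ha2 hb hb2 hab
    obtain ⟨i, hi⟩ := hsep a b ha ha2 hb hb2 hab
    refine ⟨some i, Or.inr ?_⟩
    simp only
    grind

/-- Two minimal points, every point above the first one is above the second one. -/
lemma rem_nested {a b : α} (ha : IsMin a) (hb : IsMin b) (hab : a ≠ b)
    (hn : ∀ u, a < u → b < u)
    {t : ℕ} (ht : 1 ≤ t) (h : Rz ({a, b}ᶜ : Set α) t) : Rz (Set.univ : Set α) (t + 1) := by
  classical
  obtain ⟨f, hinj, hmon, hsep⟩ := real_data h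
  let i0 : Fin t := ⟨0, ht⟩
  have ha' : ∀ z, ¬ z < a := fun z hz => hz.not_ge (ha hz.le)
  have hb' : ∀ z, ¬ z < b := fun z hz => hz.not_ge (hb hz.le)
  have tr : ∀ a b c : α, a < b → b < c → a < c := fun a b c => lt_trans
  have irr : ∀ a : α, ¬ a < a := fun a => lt_irrefl a
  have le_lt : ∀ a b : α, a ≤ b ↔ a < b ∨ a = b := fun a b => le_iff_lt_or_eq
  refine rem_pair f hinj hmon
    (fun o z => match o with
      | none => if z = a then 3 else if z = b then 1 else if a < z then 4
          else if b < z then 2 else 0
      | some _ => if z = a then 0 else if z = b then 1 else 2)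
    (fun o => match o with
      | none => i0
      | some i => i) ?_ ?_ ?_ ?_ ?_ ?_ ?_ ?_
  · intro o z hz
    rcases o with _ | i <;> simp only <;> grind
  · intro o z hz
    rcases o with _ | i <;> simp only <;> grind
  · intro o a b hab
    rcases o with _ | i <;> simp only <;> grind
  · intro z hz
    refine ⟨none, ?_⟩
    simp only
    grind
  · intro z hz
    refine ⟨some i0, ?_⟩
    simp only
    grind
  · intro z hz
    by_cases hza : z = a
    · refine ⟨some i0, ?_⟩
      simp only
      grind
    · refine ⟨none, ?_⟩
      simp only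
      grind
  · intro z hz
    by_cases hza : z = a
    · refine ⟨none, ?_⟩
      simp only
      grind
    · refine ⟨some i0, ?_⟩
      simp only
      grind
  · intro a b ha ha2 hb hb2 hab
    obtain ⟨i, hi⟩ := hsep a b ha ha2 hb hb2 hab
    refine ⟨some i, Or.inr ?_⟩
    simp only
    grind

/-- A greatest point and a minimal point. -/
lemma rem_top {a c : α} (ha : IsMin a) (hc : ∀ z, z ≤ c) (hac : a ≠ c)
    {t : ℕ} (ht : 1 ≤ t) (h : Rz ({a, c}ᶜ : Set α) t) : Rz (Set.univ : Set α) (t + 1) := by
  classical
  obtain ⟨f, hinj, hmon, hsep⟩ := real_data h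
  let i0 : Fin t := ⟨0, ht⟩
  have ha' : ∀ z, ¬ z < a := fun z hz => hz.not_ge (ha hz.le)
  have hc' : ∀ z, ¬ c < z := fun z hz => hz.not_ge (hc z)
  have tr : ∀ a b c : α, a < b → b < c → a < c := fun a b c => lt_trans
  have irr : ∀ a : α, ¬ a < a := fun a => lt_irrefl a
  have le_lt : ∀ a b : α, a ≤ b ↔ a < b ∨ a = b := fun a b => le_iff_lt_or_eq
  refine rem_pair f hinj hmon
    (fun o z => match o with
      | none => if z = a then 1 else if z = c then 3 else if a < z then 2 else 0
      | some _ => if z = a then 0 else if z = c then 2 else 1)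
    (fun o => match o with
      | none => i0
      | some i => i) ?_ ?_ ?_ ?_ ?_ ?_ ?_ ?_
  · intro o z hz
    rcases o with _ | i <;> simp only <;> grind
  · intro o z hz
    rcases o with _ | i <;> simp only <;> grind
  · intro o a b hab
    rcases o with _ | i <;> simp only <;> grind
  · intro z hz
    refine ⟨none, ?_⟩
    simp only
    grind
  · intro z hz
    refine ⟨some i0, ?_⟩
    simp only
    grind
  · intro z hz
    refine ⟨some i0, ?_⟩
    simp only
    grind
  · intro z hz
    exact absurd (hc z) hz
  · intro a b ha ha2 hb hb2 hab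
    obtain ⟨i, hi⟩ := hsep a b ha ha2 hb hb2 hab
    refine ⟨some i, Or.inr ?_⟩
    simp only
    grind

end Pool.Agent.Helper419_RPC
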