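import Pool.Agent.Helper419_RPC.Low

/-!
# A minimal point together with a second point
-/

set_option autoImplicit false

namespace Pool.Agent.Helper419_RPC

open Set

variable {α : Type*} [PartialOrder α] [Finite α]

/-- A minimal point `a` below `y`, where the points below `y` different from `a` have a greatest
element `z`. -/
lemma rem_greatest_lower {a y z : α} (ha : IsMin a) (hay : a < y) (hzy : z < y) (hza : z ≠ a)
    (hy : ∀ w, w < y → w ≠ a → w ≤ z)
    {t : ℕ} (ht : 1 ≤ t) (h : Rz ({a, y}ᶜ : Set α) t) : Rz (Set.univ : Set α) (t + 1) := by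
  classical
  obtain ⟨f, hinj, hmon, hsep⟩ := real_data h
  let i0 : Fin t := ⟨0, ht⟩
  have hx' : ∀ z, ¬ z < a := fun z hz => hz.not_ge (ha hz.le)
  have tr : ∀ a b c : α, a < b → b < c → a < c := fun a b c => lt_trans
  have irr : ∀ a : α, ¬ a < a := fun a => lt_irrefl a
  have le_lt : ∀ a b : α, a ≤ b ↔ a < b ∨ a = b := fun a b => le_iff_lt_or_eq
  have hzne : z ≠ y := hzy.ne
  refine rem_pair f hinj hmon
    (fun o v => match o with
      | none => if v = a then 1 else if v = y then 3 else if y < v then 4
          else if a < v then 2 else 0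
      | some i => if v = a then 0 else if v = y then 2 else if f i v ≤ f i z then 1 else 3)
    (fun o => match o with
      | none => i0
      | some i => i) ?_ ?_ ?_ ?_ ?_ ?_ ?_ ?_
  · intro o v hv
    rcases o with _ | i <;> simp only <;> grind
  · intro o v hv
    rcases o with _ | i <;> simp only <;> grind
  · intro o p q hpq
    rcases o with _ | i
    · simp only; grind
    · simp only
      have h1 := hmon i p q
      have h2 := hmon i p z
      have h3 := hmon i z q
      have h4 := hinj i q z
      grind
  · intro v hv
    refine ⟨none, ?_⟩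
    simp only
    grind
  · intro v hv
    refine ⟨some i0, ?_⟩
    simp only
    grind
  · intro v hv
    refine ⟨none, ?_⟩
    simp only
    grind
  · intro v hv
    by_cases hva : v = a
    · subst hva; exact absurd hay.le hv
    by_cases hvy : v = y
    · subst hvy; exact absurd le_rfl hv
    have hvz : ¬ v ≤ z := fun hh => hv (hh.trans hzy.le)
    obtain ⟨i, hi⟩ := hsep v z hva hvy hza hzne hvz
    refine ⟨some i, ?_⟩
    simp only
    grind
  · intro p q hp hp2 hq hq2 hpq
    obtain ⟨i, hi⟩ := hsep p q hp hp2 hq hq2 hpq
    refine ⟨some i, ?_⟩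
    simp only
    grind

omit [Finite α] in
/-- the points which are not above all points below `y` (and different from `a`). -/
lemma exists_threshold {a y : α} (ha : IsMin a) {t : ℕ} (f : Fin t → α → ℕ)
    (hinj : ∀ i p q, p ≠ a → p ≠ y → q ≠ a → q ≠ y → f i p = f i q → p = q)
    (hmon : ∀ i p q, p ≠ a → p ≠ y → q ≠ a → q ≠ y → p ≤ q → f i p ≤ f i q) :
    ∃ K : Fin t → α → Prop, (∀ j v, v < y → v ≠ a → K j v) ∧ (∀ j v, y < v → ¬ K j v) ∧
      (∀ j p q, f j p ≤ f j q → K j q → K j p) := by
  refine ⟨fun j v => ∃ w, w < y ∧ w ≠ a ∧ f j v ≤ f j w, ?_, ?_, ?_⟩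
  · intro j v hv hva
    exact ⟨v, hv, hva, le_rfl⟩
  · rintro j v hv ⟨w, hw, hwa, hle⟩
    have hva : v ≠ a := fun e => (hw.trans (e ▸ hv)).not_ge (ha (hw.trans (e ▸ hv)).le)
    have hwv : w < v := hw.trans hv
    have h1 := hmon j w v hwa hw.ne hva hv.ne' hwv.le
    have h2 := hinj j w v hwa hw.ne hva hv.ne' (le_antisymm h1 hle)
    exact lt_irrefl w (h2 ▸ hwv)
  · rintro j p q hpq ⟨w, hw, hwa, hle⟩
    exact ⟨w, hw, hwa, hpq.trans hle⟩

/-- A minimal point `a` below `y`: the construction with two block orders for the extension `i`. -/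
lemma rem_min_above {a y : α} (ha : IsMin a) (hay : a < y)
    {t : ℕ} (f : Fin t → α → ℕ)
    (hinj : ∀ i p q, p ≠ a → p ≠ y → q ≠ a → q ≠ y → f i p = f i q → p = q)
    (hmon : ∀ i p q, p ≠ a → p ≠ y → q ≠ a → q ≠ y → p ≤ q → f i p ≤ f i q)
    (hsep : ∀ p q, p ≠ a → p ≠ y → q ≠ a → q ≠ y → ¬ p ≤ q → ∃ i, f i q < f i p)
    (i : Fin t)
    (hbad : ∀ w u, w < y → w ≠ a → ¬ a < w → a < u → ¬ u ≤ y → ¬ y ≤ u → ¬ f i u < f i w) :
    Rz (Set.univ : Set α) (t + 1) := by
  classical
  have hx' : ∀ z, ¬ z < a := fun z hz => hz.not_ge (ha hz.le)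
  have tr : ∀ a b c : α, a < b → b < c → a < c := fun a b c => lt_trans
  have irr : ∀ a : α, ¬ a < a := fun a => lt_irrefl a
  have le_lt : ∀ a b : α, a ≤ b ↔ a < b ∨ a = b := fun a b => le_iff_lt_or_eq
  obtain ⟨K, hK1, hK2, hK3⟩ := exists_threshold (y := y) (a := a) ha f hinj hmon
  refine rem_pair f hinj hmon
    (fun o v => match o with
      | none => if v = a then 0 else if v = y then 2 else if v < y then 1 else 3
      | some j => if j = i then
          (if v = a then 1 else if v = y then 3 else if y < v then 4
            else if a < v then 2 else 0)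
          else
          (if v = a then 0 else if v = y then 2 else
            if K j v then 1 else 3))
    (fun o => match o with
      | none => i
      | some j => j) ?_ ?_ ?_ ?_ ?_ ?_ ?_ ?_
  · intro o v hv
    rcases o with _ | j
    · simp only; grind
    · by_cases hj : j = i
      · simp only [hj, if_true]; grind
      · simp only [hj, if_false]; grind
  · intro o v hv
    rcases o with _ | j
    · simp only; grind
    · by_cases hj : j = i
      · simp only [hj, if_true]; grind
      · simp only [hj, if_false]; grind
  · intro o p q hpq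
    rcases o with _ | j
    · simp only; grind
    · by_cases hj : j = i
      · simp only [hj, if_true]; grind
      · simp only [hj, if_false]
        have h1 := hK1 j p
        have h2 := hK2 j q
        have h3 := hK3 j p q
        have h4 := hmon j p q
        have h5 := hpq.le
        have h6 := hx' p
        by_cases hkq : K j q <;> by_cases hkp : K j p <;>
          simp only [hkq, hkp, if_true, if_false] <;> grind
  · intro v hv
    refine ⟨some i, ?_⟩
    simp only [if_true]
    grind
  · intro v hv
    refine ⟨none, ?_⟩
    simp only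
    grind
  · intro v hv
    refine ⟨some i, ?_⟩
    simp only [if_true]
    grind
  · intro v hv
    refine ⟨none, ?_⟩
    simp only
    grind
  · intro p q hp hp2 hq hq2 hpq
    obtain ⟨j, hj⟩ := hsep p q hp hp2 hq hq2 hpq
    by_cases hji : j = i
    · subst hji
      -- `q` is below `p` in the extension `j`
      by_cases h0 : q < y ∨ ¬ p < y
      · by_cases h1 : q < y ∧ ¬ p < y
        · refine ⟨none, ?_⟩
          simp only
          grind
        · refine ⟨none, ?_⟩
          simp only
          grind
      · push Not at h0
        -- q not below y, p below y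
        refine ⟨some j, ?_⟩
        have hb := hbad p q h0.2 hp
        simp only [if_true]
        grind
    · refine ⟨some j, ?_⟩
      simp only [hji, if_false]
      have h3 := hK3 j q p
      grind

/-- A minimal point `a` incomparable to `y`: the construction with two block orders for the
extension `i`. -/
lemma rem_min_inc {a y : α} (ha : IsMin a) (hay : ¬ a ≤ y)
    {t : ℕ} (f : Fin t → α → ℕ)
    (hinj : ∀ i p q, p ≠ a → p ≠ y → q ≠ a → q ≠ y → f i p = f i q → p = q)
    (hmon : ∀ i p q, p ≠ a → p ≠ y → q ≠ a → q ≠ y → p ≤ q → f i p ≤ f i q)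
    (hsep : ∀ p q, p ≠ a → p ≠ y → q ≠ a → q ≠ y → ¬ p ≤ q → ∃ i, f i q < f i p)
    (i : Fin t)
    (hbad : ∀ w u, a < u → y < u → ¬ a < w → ¬ y < w → w ≠ a → w ≠ y → ¬ f i u < f i w) :
    Rz (Set.univ : Set α) (t + 1) := by
  classical
  have hx' : ∀ z, ¬ z < a := fun z hz => hz.not_ge (ha hz.le)
  have tr : ∀ a b c : α, a < b → b < c → a < c := fun a b c => lt_trans
  have irr : ∀ a : α, ¬ a < a := fun a => lt_irrefl a
  have le_lt : ∀ a b : α, a ≤ b ↔ a < b ∨ a = b := fun a b => le_iff_lt_or_eq
  obtain ⟨K, hK1, hK2, hK3⟩ := exists_threshold (y := y) (a := a) ha f hinj hmon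
  have hne : a ≠ y := fun e => hay e.le
  refine rem_pair f hinj hmon
    (fun o v => match o with
      | none => if v = a then 0 else if v = y then 2 else if y < v then 3 else 1
      | some j => if j = i then
          (if v = a then 3 else if v = y then 1 else if v < y then 0
            else if a < v then 4 else 2)
          else
          (if v = a then 0 else if v = y then 2 else
            if K j v then 1 else 3))
    (fun o => match o with
      | none => i
      | some j => j) ?_ ?_ ?_ ?_ ?_ ?_ ?_ ?_
  · intro o v hv
    rcases o with _ | j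
    · simp only; grind
    · by_cases hj : j = i
      · simp only [hj, if_true]; grind
      · simp only [hj, if_false]; grind
  · intro o v hv
    rcases o with _ | j
    · simp only; grind
    · by_cases hj : j = i
      · simp only [hj, if_true]; grind
      · simp only [hj, if_false]; grind
  · intro o p q hpq
    rcases o with _ | j
    · simp only; grind
    · by_cases hj : j = i
      · simp only [hj, if_true]; grind
      · simp only [hj, if_false]
        have h1 := hK1 j p
        have h2 := hK2 j q
        have h3 := hK3 j p q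
        have h4 := hmon j p q
        have h5 := hpq.le
        have h6 := hx' p
        by_cases hkq : K j q <;> by_cases hkp : K j p <;>
          simp only [hkq, hkp, if_true, if_false] <;> grind
  · intro v hv
    refine ⟨some i, ?_⟩
    simp only [if_true]
    grind
  · intro v hv
    refine ⟨none, ?_⟩
    simp only
    grind
  · intro v hv
    refine ⟨none, ?_⟩
    simp only
    grind
  · intro v hv
    refine ⟨some i, ?_⟩
    simp only [if_true]
    grind
  · intro p q hp hp2 hq hq2 hpq
    obtain ⟨j, hj⟩ := hsep p q hp hp2 hq hq2 hpq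
    by_cases hji : j = i
    · subst hji
      by_cases h0 : y < q ∧ ¬ y < p
      · refine ⟨some j, ?_⟩
        have hb := hbad p q
        simp only [if_true]
        grind
      · refine ⟨none, ?_⟩
        simp only
        grind
    · refine ⟨some j, ?_⟩
      simp only [hji, if_false]
      have h3 := hK3 j q p
      grind

end Pool.Agent.Helper419_RPC
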