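import Pool.Agent.Helper419_RPC.FiveMin

/-!
# Comparable pairs, twins, and a maximal point together with an incomparable point
-/

set_option autoImplicit false

namespace Pool.Agent.Helper419_RPC

open Set

variable {α : Type*} [PartialOrder α] [Finite α]

/-- A comparable pair `x < y`: the construction with two block orders for the extension `i`. -/
lemma rem_comp {x y : α} (hxy : x < y)
    {t : ℕ} (f : Fin t → α → ℕ)
    (hinj : ∀ i p q, p ≠ x → p ≠ y → q ≠ x → q ≠ y → f i p = f i q → p = q)
    (hmon : ∀ i p q, p ≠ x → p ≠ y → q ≠ x → q ≠ y → p ≤ q → f i p ≤ f i q)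
    (hsep : ∀ p q, p ≠ x → p ≠ y → q ≠ x → q ≠ y → ¬ p ≤ q → ∃ i, f i q < f i p)
    (i : Fin t)
    (hbad : ∀ w u, w < y → ¬ w ≤ x → ¬ x ≤ w → x < u → ¬ u ≤ y → ¬ y ≤ u → ¬ f i u < f i w) :
    Rz (Set.univ : Set α) (t + 1) := by
  classical
  have tr : ∀ a b c : α, a < b → b < c → a < c := fun a b c => lt_trans
  have irr : ∀ a : α, ¬ a < a := fun a => lt_irrefl a
  have le_lt : ∀ a b : α, a ≤ b ↔ a < b ∨ a = b := fun a b => le_iff_lt_or_eq
  obtain ⟨K, hK1, hK2, hK3⟩ : ∃ K : Fin t → α → Prop,
      (∀ j v, v < x → K j v) ∧ (∀ j v, v ≠ y → x < v → ¬ K j v) ∧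
      (∀ j p q, f j p ≤ f j q → K j q → K j p) := by
    refine ⟨fun j v => ∃ w, w < x ∧ f j v ≤ f j w, ?_, ?_, ?_⟩
    · intro j v hv
      exact ⟨v, hv, le_rfl⟩
    · rintro j v hvy hv ⟨w, hw, hle⟩
      have hwv : w < v := hw.trans hv
      have h1 := hmon j w v hw.ne (hw.trans hxy).ne hv.ne' hvy hwv.le
      have h2 := hinj j w v hw.ne (hw.trans hxy).ne hv.ne' hvy (le_antisymm h1 hle)
      exact lt_irrefl w (h2 ▸ hwv)
    · rintro j p q hpq ⟨w, hw, hle⟩
      exact ⟨w, hw, hpq.trans hle⟩
  obtain ⟨M, hM1, hM2, hM3, hM4⟩ : ∃ M : Fin t → α → Prop,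
      (∀ j v, v < y → v ≠ x → M j v) ∧ (∀ j v, y < v → ¬ M j v) ∧
      (∀ j p q, f j p ≤ f j q → M j q → M j p) ∧ (∀ j v, K j v → v < x → M j v) := by
    refine ⟨fun j v => ∃ w, w < y ∧ w ≠ x ∧ f j v ≤ f j w, ?_, ?_, ?_, ?_⟩
    · intro j v hv hva
      exact ⟨v, hv, hva, le_rfl⟩
    · rintro j v hv ⟨w, hw, hwa, hle⟩
      have hwv : w < v := hw.trans hv
      have hvx : v ≠ x := (hxy.trans hv).ne'
      have h1 := hmon j w v hwa hw.ne hvx hv.ne' hwv.le
      have h2 := hinj j w v hwa hw.ne hvx hv.ne' (le_antisymm h1 hle)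
      exact lt_irrefl w (h2 ▸ hwv)
    · rintro j p q hpq ⟨w, hw, hwa, hle⟩
      exact ⟨w, hw, hwa, hpq.trans hle⟩
    · intro j v _ hv
      exact ⟨v, hv.trans hxy, hv.ne, le_rfl⟩
  refine rem_pair f hinj hmon
    (fun o v => match o with
      | none => if v = x then 1 else if v = y then 3 else if v < x then 0
          else if v < y then 2 else 4
      | some j => if j = i then
          (if v = x then 1 else if v = y then 3 else if y < v then 4
            else if x < v then 2 else 0)
          else
          (if v = x then 1 else if v = y then 3 else if K j v then 0 else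
            if M j v then 2 else 4))
    (fun o => match o with
      | none => i
      | some j => j) ?_ ?_ ?_ ?_ ?_ ?_ ?_ ?_
  · intro o v hv
    rcases o with _ | j
    · simp only; grind
    · by_cases hj : j = i
      · simp only [hj, if_true]; grind
      · simp only [hj, if_false]; grind
  · intro o v hv
    rcases o with _ | j
    · simp only; grind
    · by_cases hj : j = i
      · simp only [hj, if_true]; grind
      · simp only [hj, if_false]; grind
  · intro o p q hpq
    rcases o with _ | j
    · simp only; grind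
    · by_cases hj : j = i
      · simp only [hj, if_true]; grind
      · simp only [hj, if_false]
        have h1 := hK1 j p
        have h2 := hK2 j q
        have h3 := hK3 j p q
        have h4 := hmon j p q
        have h5 := hpq.le
        have h6 := hM1 j p
        have h7 := hM2 j q
        have h8 := hM3 j p q
        by_cases hkq : K j q <;> by_cases hkp : K j p <;> by_cases hmq : M j q <;>
          by_cases hmp : M j p <;>
          simp only [hkq, hkp, hmq, hmp, if_true, if_false] <;> grind
  · intro v hv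
    refine ⟨some i, ?_⟩
    simp only [if_true]
    grind
  · intro v hv
    refine ⟨none, ?_⟩
    simp only
    grind
  · intro v hv
    refine ⟨some i, ?_⟩
    simp only [if_true]
    grind
  · intro v hv
    refine ⟨none, ?_⟩
    simp only
    grind
  · intro p q hp hp2 hq hq2 hpq
    obtain ⟨j, hj⟩ := hsep p q hp hp2 hq hq2 hpq
    by_cases hji : j = i
    · subst hji
      have hb := hbad p q
      by_cases h0 : x < q ∧ ¬ x < p
      · refine ⟨none, ?_⟩
        simp only
        grind
      · by_cases h1 : y < q ∧ ¬ y < p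
        · refine ⟨none, ?_⟩
          simp only
          grind
        · refine ⟨some j, ?_⟩
          simp only [if_true]
          grind
    · refine ⟨some j, ?_⟩
      simp only [hji, if_false]
      have h3 := hK3 j q p
      have h4 := hM3 j q p
      by_cases hkq : K j q <;> by_cases hkp : K j p <;> by_cases hmq : M j q <;>
          by_cases hmp : M j p <;>
          simp only [hkq, hkp, hmq, hmp, if_true, if_false] <;> grind

/-- A minimal point `a` incomparable to `y`, where a further point has the same points above it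
as `y`. -/
lemma rem_twin {a y y' : α} (ha : IsMin a) (hay : ¬ a ≤ y) (hy'y : y' ≠ y) (hy'a : y' ≠ a)
    (htw : ∀ v, y < v ↔ y' < v)
    {t : ℕ} (ht : 1 ≤ t) (h : Rz ({a, y}ᶜ : Set α) t) : Rz (Set.univ : Set α) (t + 1) := by
  classical
  obtain ⟨f, hinj, hmon, hsep⟩ := real_data h
  let i0 : Fin t := ⟨0, ht⟩
  have hx' : ∀ z, ¬ z < a := fun z hz => hz.not_ge (ha hz.le)
  have tr : ∀ a b c : α, a < b → b < c → a < c := fun a b c => lt_trans
  have irr : ∀ a : α, ¬ a < a := fun a => lt_irrefl a
  have le_lt : ∀ a b : α, a ≤ b ↔ a < b ∨ a = b := fun a b => le_iff_lt_or_eq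
  have hne : a ≠ y := fun e => hay e.le
  obtain ⟨K, hK1, hK2, hK3, hK4⟩ : ∃ K : Fin t → α → Prop,
      (∀ j v, y < v → K j v) ∧ (∀ j v, v ≠ a → v < y → ¬ K j v) ∧
      (∀ j p q, f j p ≤ f j q → K j p → K j q) ∧
      (∀ j v, K j v → ∃ w, y < w ∧ f j w ≤ f j v) := by
    refine ⟨fun j v => ∃ w, y < w ∧ f j w ≤ f j v, ?_, ?_, ?_, ?_⟩
    · intro j v hv
      exact ⟨v, hv, le_rfl⟩
    · rintro j v hva hv ⟨w, hw, hle⟩
      have hwv : v < w := hv.trans hw
      have hwa : w ≠ a := fun e => hx' v (e ▸ hwv)
      have h1 := hmon j v w hva hv.ne hwa hw.ne' hwv.le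
      have h2 := hinj j v w hva hv.ne hwa hw.ne' (le_antisymm h1 hle)
      exact lt_irrefl w (h2 ▸ hwv)
    · rintro j p q hpq ⟨w, hw, hle⟩
      exact ⟨w, hw, hle.trans hpq⟩
    · intro j v hv
      exact hv
  -- every point which is not above `y` is below all points above `y` in some extension
  have key : ∀ z, z ≠ a → ¬ y ≤ z → ∃ j, ¬ K j z := by
    intro z hza hyz
    have hzy : z ≠ y := fun e => hyz e.ge
    by_contra hall
    push Not at hall
    -- comparison with `y'`
    have hcmp : ∀ j, f j z ≤ f j y' → False := by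
      intro j hle
      obtain ⟨w, hw, hwle⟩ := hK4 j z (hall j)
      have hy'w : y' < w := (htw w).1 hw
      have hwa : w ≠ a := fun e => hx' y' (e ▸ hy'w)
      have h1 := hmon j y' w hy'a hy'y hwa hw.ne' hy'w.le
      have h2 := hinj j y' w hy'a hy'y hwa hw.ne' (le_antisymm h1 (hwle.trans hle))
      exact lt_irrefl w (h2 ▸ hy'w)
    by_cases hzy' : y' ≤ z
    · rcases hzy'.lt_or_eq with h' | h'
      · exact hyz ((htw z).2 h').le
      · exact hcmp i0 (by rw [h'])
    · obtain ⟨j, hj⟩ := hsep y' z hy'a hy'y hza hzy hzy'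
      exact hcmp j hj.le
  refine rem_pair f hinj hmon
    (fun o v => match o with
      | none => if v = a then 3 else if v = y then 1 else if v < y then 0
          else if a < v then 4 else 2
      | some j => if v = a then 0 else if v = y then 2 else if K j v then 3 else 1)
    (fun o => match o with
      | none => i0
      | some i => i) ?_ ?_ ?_ ?_ ?_ ?_ ?_ ?_
  · intro o v hv
    rcases o with _ | j <;> simp only <;> grind
  · intro o v hv
    rcases o with _ | j <;> simp only <;> grind
  · intro o p q hpq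
    rcases o with _ | j
    · simp only; grind
    · simp only
      have h1 := hK1 j q
      have h2 := hK2 j p
      have h3 := hK3 j p q
      have h4 := hmon j p q
      have h5 := hpq.le
      have h6 := hx' p
      by_cases hkq : K j q <;> by_cases hkp : K j p <;>
        simp only [hkq, hkp, if_true, if_false] <;> grind
  · intro v hv
    refine ⟨none, ?_⟩
    simp only
    grind
  · intro v hv
    refine ⟨some i0, ?_⟩
    simp only
    grind
  · intro v hv
    by_cases hva : v = a
    · subst hva
      refine ⟨some i0, ?_⟩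
      simp only
      grind
    · obtain ⟨j, hj⟩ := key v hva hv
      refine ⟨some j, ?_⟩
      have hvy : v ≠ y := fun e => hv e.ge
      simp only [hva, hvy, hj, if_false, if_true]
      have hya : y ≠ a := hne.symm
      simp only [hya, if_false]
      omega
  · intro v hv
    refine ⟨none, ?_⟩
    simp only
    grind
  · intro p q hp hp2 hq hq2 hpq
    obtain ⟨i, hi⟩ := hsep p q hp hp2 hq hq2 hpq
    refine ⟨some i, ?_⟩
    have h3 := hK3 i q p
    simp only
    grind

/-- A maximal point `c` incomparable to `x`: one new extension, and `x` as low as possible in the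
old extensions. -/
lemma rem_low_insert_max {c x : α} (hc : IsMax c) (hxc : ¬ x ≤ c)
    (hz : ∀ z, z ≠ c → ¬ z ≤ x → ¬ x ≤ z → ∃ v, v ≠ x ∧ v ≠ c ∧ (∀ e, e < x → e ≤ v) ∧ ¬ z < v)
    {t : ℕ} (ht : 1 ≤ t) (h : Rz ({c, x}ᶜ : Set α) t) : Rz (Set.univ : Set α) (t + 1) := by
  classical
  obtain ⟨f, hinj, hmon, hsep⟩ := real_data h
  let i0 : Fin t := ⟨0, ht⟩
  have hx' : ∀ z, ¬ c < z := fun z hz => hz.not_ge (hc hz.le)
  have tr : ∀ a b c : α, a < b → b < c → a < c := fun a b c => lt_trans
  have irr : ∀ a : α, ¬ a < a := fun a => lt_irrefl a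
  have le_lt : ∀ a b : α, a ≤ b ↔ a < b ∨ a = b := fun a b => le_iff_lt_or_eq
  have hne : x ≠ c := fun e => hxc e.le
  obtain ⟨K, hK1, hK2, hK3, hK4⟩ : ∃ K : Fin t → α → Prop,
      (∀ j v, v < x → K j v) ∧ (∀ j v, v ≠ c → x < v → ¬ K j v) ∧
      (∀ j p q, f j p ≤ f j q → K j q → K j p) ∧
      (∀ j v, K j v → ∃ w, w < x ∧ f j v ≤ f j w) := by
    refine ⟨fun j v => ∃ w, w < x ∧ f j v ≤ f j w, ?_, ?_, ?_, ?_⟩
    · intro j v hv
      exact ⟨v, hv, le_rfl⟩
    · rintro j v hvc hv ⟨w, hw, hle⟩
      have hwv : w < v := hw.trans hv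
      have hwc : w ≠ c := fun e => hx' v (e ▸ hwv)
      have h1 := hmon j w v hwc hw.ne hvc hv.ne' hwv.le
      have h2 := hinj j w v hwc hw.ne hvc hv.ne' (le_antisymm h1 hle)
      exact lt_irrefl w (h2 ▸ hwv)
    · rintro j p q hpq ⟨w, hw, hle⟩
      exact ⟨w, hw, hpq.trans hle⟩
    · intro j v hv
      exact hv
  have key : ∀ z, z ≠ c → ¬ z ≤ x → ∃ j, ¬ K j z := by
    intro z hzc hzx
    by_cases hxz : x ≤ z
    · exact ⟨i0, hK2 i0 z hzc (lt_of_le_of_ne hxz (fun e => hzx e.ge))⟩
    by_contra hall
    push Not at hall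
    obtain ⟨v, hvx, hvc, hv, hzv⟩ := hz z hzc hzx hxz
    obtain ⟨w0, hw0, hle0⟩ := hK4 i0 z (hall i0)
    have hzx' : z ≠ x := fun e => hzx e.le
    have hwc : ∀ w, w < x → w ≠ c := fun w hw e => hx' x (e ▸ hw)
    have hzv' : z ≤ v := by
      by_contra hcon
      obtain ⟨j, hj⟩ := hsep z v hzc hzx' hvc hvx hcon
      obtain ⟨w, hw, hle⟩ := hK4 j z (hall j)
      have := hmon j w v (hwc w hw) hw.ne hvc hvx (hv w hw)
      omega
    rcases hzv'.lt_or_eq with h' | h'
    · exact hzv h'
    · have h1 := hmon i0 w0 v (hwc w0 hw0) hw0.ne hvc hvx (hv w0 hw0)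
      rw [← h'] at h1
      have h2 := hinj i0 w0 z (hwc w0 hw0) hw0.ne hzc hzx' (le_antisymm h1 hle0)
      exact hzx (h2 ▸ hw0.le)
  refine rem_pair f hinj hmon
    (fun o v => match o with
      | none => if v = c then 1 else if v = x then 3 else if x < v then 4
          else if v < c then 0 else 2
      | some j => if v = c then 4 else if v = x then 2 else if K j v then 1 else 3)
    (fun o => match o with
      | none => i0
      | some i => i) ?_ ?_ ?_ ?_ ?_ ?_ ?_ ?_
  · intro o v hv
    rcases o with _ | j <;> simp only <;> grind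
  · intro o v hv
    rcases o with _ | j <;> simp only <;> grind
  · intro o p q hpq
    rcases o with _ | j
    · simp only; grind
    · simp only
      have h1 := hK1 j p
      have h2 := hK2 j q
      have h3 := hK3 j p q
      have h4 := hmon j p q
      have h5 := hpq.le
      have h6 := hx' q
      by_cases hkq : K j q <;> by_cases hkp : K j p <;>
        simp only [hkq, hkp, if_true, if_false] <;> grind
  · intro v hv
    refine ⟨some i0, ?_⟩
    simp only
    grind
  · intro v hv
    refine ⟨none, ?_⟩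
    simp only
    grind
  · intro v hv
    refine ⟨none, ?_⟩
    simp only
    grind
  · intro v hv
    by_cases hvc : v = c
    · subst hvc
      refine ⟨some i0, ?_⟩
      simp only
      grind
    obtain ⟨j, hj⟩ := key v hvc hv
    refine ⟨some j, ?_⟩
    have hvx : v ≠ x := fun e => hv e.le
    simp only [hvc, hvx, hj, if_false, if_true]
    simp only [hne, if_false]
    omega
  · intro p q hp hp2 hq hq2 hpq
    obtain ⟨i, hi⟩ := hsep p q hp hp2 hq hq2 hpq
    refine ⟨some i, ?_⟩
    have h3 := hK3 i q p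
    simp only
    grind

end Pool.Agent.Helper419_RPC
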