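import Pool.Agent.Helper419_RPC.Facts3

/-!
# A poset without removable pairs has at least five minimal points
-/

set_option autoImplicit false

namespace Pool.Agent.Helper419_RPC

open Set

variable {α : Type*} [PartialOrder α] [Finite α]

/-- a point which is not minimal has three minimal points below it. -/
lemma NoRem.three_below (H : NoRem α) {u : α} (hu : ¬ IsMin u) (a b : α) :
    ∃ c, IsMin c ∧ c ≠ a ∧ c ≠ b ∧ c < u := by
  by_contra hcon
  push Not at hcon
  -- a minimal point `y` among the non minimal points below `u`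
  obtain ⟨y, hyu, hy⟩ := Set.Finite.exists_le_minimal
    (Set.toFinite ({z : α | z ≤ u ∧ ¬ IsMin z} : Set α))
    (show u ∈ ({z : α | z ≤ u ∧ ¬ IsMin z} : Set α) from ⟨le_rfl, hu⟩)
  have hyu' : y ≤ u := hy.1.1
  have hymin : ¬ IsMin y := hy.1.2
  have hbmin : ∀ z, z < y → IsMin z := by
    intro z hz
    by_contra hzm
    exact hz.not_ge (hy.2 ⟨hz.le.trans hyu', hzm⟩ hz.le)
  have hbelow : ∀ z, z < y → z = a ∨ z = b := by
    intro z hz
    by_contra hzab
    push Not at hzab
    exact hcon z (hbmin z hz) hzab.1 hzab.2 (lt_of_lt_of_le hz hyu')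
  obtain ⟨z, hz⟩ : ∃ z, z < y := by
    by_contra hno
    push Not at hno
    exact hymin fun b hb => by
      rcases hb.lt_or_eq with h | h
      · exact absurd h (hno b)
      · exact h.ge
  obtain ⟨b', hb', hb'z, hb'y⟩ := H.two_below hz
  have hzmin := hbmin z hz
  have hall : ∀ w, w < y → w ≠ z → w ≤ b' := by
    intro w hw hwz
    rcases hbelow z hz with h1 | h1 <;> rcases hbelow b' hb'y with h2 | h2 <;>
      rcases hbelow w hw with h3 | h3 <;> grind
  obtain ⟨t, ht, h, hn⟩ := H z y hz.ne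
  exact hn (rem_greatest_lower hzmin hz hb'y hb'z hall ht h)

/-- every minimal point is below some point. -/
lemma NoRem.exists_above (H : NoRem α) (hcard : ∃ x y : α, x ≠ y) {a : α} (ha : IsMin a) :
    ∃ u, a < u := by
  obtain ⟨c, c', hc, hc', hcc⟩ := H.two_max hcard
  rcases (H.min_le_max ha hc).lt_or_eq with h | h
  · exact ⟨c, h⟩
  · refine ⟨c', lt_of_le_of_ne (H.min_le_max ha hc') ?_⟩
    intro h'
    exact hcc (h.symm.trans h')

/-- There are five minimal points. -/
lemma NoRem.five_min (H : NoRem α) (hcard : ∃ x y : α, x ≠ y) :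
    5 ≤ ({a : α | IsMin a} : Set α).ncard := by
  classical
  by_contra hlt
  -- two minimal points which are not below a non minimal point
  have M4 : ∀ v k l : α, ¬ IsMin v → IsMin k → IsMin l → k ≠ l → k < v ∨ l < v := by
    intro v k l hv hk hl hkl
    by_contra hcon
    push Not at hcon
    obtain ⟨c1, hc1, h11, h12, h13⟩ := H.three_below hv k l
    obtain ⟨c2, hc2, h21, -, h23⟩ := H.three_below hv c1 c1
    obtain ⟨c3, hc3, h31, h32, h33⟩ := H.three_below hv c1 c2
    apply hlt
    have hsub : (({k, l, c1, c2, c3} : Finset α) : Set α) ⊆ {a : α | IsMin a} := by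
      intro z hz
      simp only [Finset.coe_insert, Finset.coe_singleton, Set.mem_insert_iff,
        Set.mem_singleton_iff] at hz
      simp only [Set.mem_ofPred_eq]
      rcases hz with h | h | h | h | h <;> rw [h] <;> assumption
    have hc5 : ({k, l, c1, c2, c3} : Finset α).card = 5 := by
      have hk2 : k ≠ c2 := fun e => hcon.1 (e ▸ h23)
      have hk3 : k ≠ c3 := fun e => hcon.1 (e ▸ h33)
      have hl2 : l ≠ c2 := fun e => hcon.2 (e ▸ h23)
      have hl3 : l ≠ c3 := fun e => hcon.2 (e ▸ h33)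
      rw [Finset.card_insert_of_notMem, Finset.card_insert_of_notMem,
        Finset.card_insert_of_notMem, Finset.card_insert_of_notMem, Finset.card_singleton]
      all_goals simp only [Finset.mem_insert, Finset.mem_singleton, not_or]
      all_goals grind
    rw [← hc5, ← Set.ncard_coe_finset]
    exact Set.ncard_le_ncard hsub (Set.toFinite _)
  -- two minimal points
  obtain ⟨x0, y0, hxy0⟩ := hcard
  obtain ⟨a2, ha2, -⟩ := exists_min_le x0
  obtain ⟨u0, hu0⟩ := H.exists_above ⟨x0, y0, hxy0⟩ ha2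
  obtain ⟨a1, ha1, h12, -⟩ := H.two_below hu0
  obtain ⟨y, h1y, h2y⟩ := H.not_nested ha1 ha2 h12
  have hymin : ¬ IsMin y := fun h => h1y.not_ge (h h1y.le)
  have h2ney : a2 ≠ y := fun e => hymin (e ▸ ha2)
  have h2ley : ¬ a2 ≤ y := fun h => by
    rcases h.lt_or_eq with h' | h'
    · exact h2y h'
    · exact h2ney h'
  -- a second point which is not above `a2`
  obtain ⟨y', hy'y, hy'min, h2y', hyy'⟩ : ∃ y', y' ≠ y ∧ ¬ IsMin y' ∧ ¬ a2 < y' ∧ ¬ y < y' := by
    obtain ⟨t, ht, h, hn⟩ := H a2 y h2ney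
    obtain ⟨f, hinj, hmon, hsep⟩ := real_data h
    by_contra hno
    push Not at hno
    apply hn
    refine rem_min_inc ha2 h2ley f hinj hmon hsep ⟨0, ht⟩ ?_
    intro w u h2u hyu h2w hyw hwa hwy hlt'
    by_cases hw : IsMin w
    · have hwu : w < u := by
        rcases M4 y w a2 hymin hw ha2 hwa with h' | h'
        · exact h'.trans hyu
        · exact absurd h' h2y
      have hu2 : u ≠ a2 := h2u.ne'
      have := hmon ⟨0, ht⟩ w u hwa hwy hu2 hyu.ne' hwu.le
      omega
    · exact hyw (hno w hwy hw h2w)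
  have h2ney' : a2 ≠ y' := fun e => hy'min (e ▸ ha2)
  have h2ley' : ¬ a2 ≤ y' := fun h => by
    rcases h.lt_or_eq with h' | h'
    · exact h2y' h'
    · exact h2ney' h'
  obtain ⟨t, ht, h, hn⟩ := H a1 y h1y.ne
  obtain ⟨f, hinj, hmon, hsep⟩ := real_data h
  have hy'a1 : y' ≠ a1 := fun e => hy'min (e ▸ ha1)
  obtain ⟨i, hi⟩ := hsep a2 y' h12.symm h2ney hy'a1 hy'y h2ley'
  apply hn
  refine rem_min_above ha1 h1y f hinj hmon hsep i ?_
  intro w u hwy hwa h1w h1u huy hyu hlt'
  have hw : IsMin w := by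
    by_contra hw
    rcases M4 w a1 a2 hw ha1 ha2 h12 with h' | h'
    · exact h1w h'
    · exact h2y (h'.trans hwy)
  have hu : ¬ IsMin u := fun h => h1u.not_ge (h h1u.le)
  have hw2 : w ≠ a2 := fun e => h2y (e ▸ hwy)
  have hwu : ¬ w < u := by
    intro h'
    have := hmon i w u hwa hwy.ne h1u.ne' (fun e => huy e.le) h'.le
    omega
  have h2u : a2 < u := by
    rcases M4 u w a2 hu hw ha2 hw2 with h' | h'
    · exact absurd h' hwu
    · exact h'
  have hwy' : w < y' := by
    rcases M4 y' w a2 hy'min hw ha2 hw2 with h' | h'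
    · exact h'
    · exact absurd h' h2y'
  have e1 := hmon i a2 u h12.symm h2ney h1u.ne' (fun e => huy e.le) h2u.le
  have e2 := hmon i w y' hwa hwy.ne hy'a1 hy'y hwy'.le
  omega

end Pool.Agent.Helper419_RPC
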