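import Pool.Agent.Helper419_RPC.Dual

/-!
# A poset without removable pairs has at least six minimal points
-/

set_option autoImplicit false

namespace Pool.Agent.Helper419_RPC

open Set

variable {α : Type*} [PartialOrder α] [Finite α]

/-- A minimal point `a` below `y`: one new extension, and `y` as low as possible in the old
extensions. -/
lemma rem_low_insert {a y : α} (ha : IsMin a) (hay : a < y)
    (hz : ∀ z, ¬ z ≤ y → ¬ y ≤ z → ∃ v, v ≠ y ∧ (∀ e, e < y → e ≠ a → e ≤ v) ∧ ¬ z < v)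
    {t : ℕ} (ht : 1 ≤ t) (h : Rz ({a, y}ᶜ : Set α) t) : Rz (Set.univ : Set α) (t + 1) := by
  classical
  obtain ⟨f, hinj, hmon, hsep⟩ := real_data h
  let i0 : Fin t := ⟨0, ht⟩
  have hx' : ∀ z, ¬ z < a := fun z hz => hz.not_ge (ha hz.le)
  have tr : ∀ a b c : α, a < b → b < c → a < c := fun a b c => lt_trans
  have irr : ∀ a : α, ¬ a < a := fun a => lt_irrefl a
  have le_lt : ∀ a b : α, a ≤ b ↔ a < b ∨ a = b := fun a b => le_iff_lt_or_eq
  obtain ⟨K, hK1, hK2, hK3, hK4⟩ : ∃ K : Fin t → α → Prop,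
      (∀ j v, v < y → v ≠ a → K j v) ∧ (∀ j v, y < v → ¬ K j v) ∧
      (∀ j p q, f j p ≤ f j q → K j q → K j p) ∧
      (∀ j v, K j v → ∃ w, w < y ∧ w ≠ a ∧ f j v ≤ f j w) := by
    refine ⟨fun j v => ∃ w, w < y ∧ w ≠ a ∧ f j v ≤ f j w, ?_, ?_, ?_, ?_⟩
    · intro j v hv hva
      exact ⟨v, hv, hva, le_rfl⟩
    · rintro j v hv ⟨w, hw, hwa, hle⟩
      have hva : v ≠ a := fun e => (hw.trans (e ▸ hv)).not_ge (ha (hw.trans (e ▸ hv)).le)
      have hwv : w < v := hw.trans hv
      have h1 := hmon j w v hwa hw.ne hva hv.ne' hwv.le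
      have h2 := hinj j w v hwa hw.ne hva hv.ne' (le_antisymm h1 hle)
      exact lt_irrefl w (h2 ▸ hwv)
    · rintro j p q hpq ⟨w, hw, hwa, hle⟩
      exact ⟨w, hw, hwa, hpq.trans hle⟩
    · intro j v hv
      exact hv
  -- every point which is not below `y` is above all points below `y` in some extension
  have key : ∀ z, z ≠ a → ¬ z ≤ y → ∃ j, ¬ K j z := by
    intro z hza hzy
    by_cases hyz : y ≤ z
    · exact ⟨i0, hK2 i0 z (lt_of_le_of_ne hyz (fun e => hzy e.ge))⟩
    by_contra hall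
    push Not at hall
    obtain ⟨v, hvy, hv, hzv⟩ := hz z hzy hyz
    obtain ⟨w0, hw0, hw0a, hle0⟩ := hK4 i0 z (hall i0)
    have hva : v ≠ a := by
      intro e
      have h1 := hv w0 hw0 hw0a
      rw [e] at h1
      exact hw0a (h1.antisymm (ha h1))
    have hzy' : z ≠ y := fun e => hzy e.le
    have hzv' : z ≤ v := by
      by_contra hcon
      obtain ⟨j, hj⟩ := hsep z v hza hzy' hva hvy hcon
      obtain ⟨w, hw, hwa, hle⟩ := hK4 j z (hall j)
      have := hmon j w v hwa hw.ne hva hvy (hv w hw hwa)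
      omega
    rcases hzv'.lt_or_eq with h' | h'
    · exact hzv h'
    · have h1 := hmon i0 w0 v hw0a hw0.ne hva hvy (hv w0 hw0 hw0a)
      rw [← h'] at h1
      have h2 := hinj i0 w0 z hw0a hw0.ne hza hzy' (le_antisymm h1 hle0)
      exact hzy (h2 ▸ hw0.le)
  refine rem_pair f hinj hmon
    (fun o v => match o with
      | none => if v = a then 1 else if v = y then 3 else if y < v then 4
          else if a < v then 2 else 0
      | some j => if v = a then 0 else if v = y then 2 else if K j v then 1 else 3)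
    (fun o => match o with
      | none => i0
      | some i => i) ?_ ?_ ?_ ?_ ?_ ?_ ?_ ?_
  · intro o v hv
    rcases o with _ | j <;> simp only <;> grind
  · intro o v hv
    rcases o with _ | j <;> simp only <;> grind
  · intro o p q hpq
    rcases o with _ | j
    · simp only; grind
    · simp only
      have h1 := hK1 j p
      have h2 := hK2 j q
      have h3 := hK3 j p q
      have h4 := hmon j p q
      have h5 := hpq.le
      have h6 := hx' p
      by_cases hkq : K j q <;> by_cases hkp : K j p <;>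
        simp only [hkq, hkp, if_true, if_false] <;> grind
  · intro v hv
    refine ⟨none, ?_⟩
    simp only
    grind
  · intro v hv
    refine ⟨some i0, ?_⟩
    simp only
    grind
  · intro v hv
    by_cases hva : v = a
    · subst hva
      refine ⟨some i0, ?_⟩
      simp only
      grind
    · refine ⟨none, ?_⟩
      simp only
      grind
  · intro v hv
    by_cases hva : v = a
    · subst hva; exact absurd hay.le hv
    obtain ⟨j, hj⟩ := key v hva hv
    refine ⟨some j, ?_⟩
    have hvy : v ≠ y := fun e => hv e.le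
    simp only [hva, hvy, hj, if_false, if_true]
    have hya : y ≠ a := hay.ne'
    simp only [hya, if_false]
    omega
  · intro p q hp hp2 hq hq2 hpq
    obtain ⟨i, hi⟩ := hsep p q hp hp2 hq hq2 hpq
    refine ⟨some i, ?_⟩
    have h3 := hK3 i q p
    simp only
    grind

/-- A poset without removable pairs has a non minimal point which is incomparable to two minimal
points. -/
lemma NoRem.two_inc (H : NoRem α) (hcard : ∃ x y : α, x ≠ y) :
    ∃ v k l : α, ¬ IsMin v ∧ IsMin k ∧ IsMin l ∧ k ≠ l ∧ ¬ k < v ∧ ¬ l < v := by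
  classical
  by_contra hno
  have M4 : ∀ v k l : α, ¬ IsMin v → IsMin k → IsMin l → k ≠ l → k < v ∨ l < v := by
    intro v k l hv hk hl hkl
    by_contra hcon
    push Not at hcon
    exact hno ⟨v, k, l, hv, hk, hl, hkl, hcon.1, hcon.2⟩
  -- two minimal points
  obtain ⟨x0, y0, hxy0⟩ := hcard
  obtain ⟨a2, ha2, -⟩ := exists_min_le x0
  obtain ⟨u0, hu0⟩ := H.exists_above ⟨x0, y0, hxy0⟩ ha2
  obtain ⟨a1, ha1, h12, -⟩ := H.two_below hu0
  obtain ⟨y, h1y, h2y⟩ := H.not_nested ha1 ha2 h12
  have hymin : ¬ IsMin y := fun h => h1y.not_ge (h h1y.le)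
  have h2ney : a2 ≠ y := fun e => hymin (e ▸ ha2)
  have h2ley : ¬ a2 ≤ y := fun h => by
    rcases h.lt_or_eq with h' | h'
    · exact h2y h'
    · exact h2ney h'
  -- a second point which is not above `a2`
  obtain ⟨y', hy'y, hy'min, h2y', hyy'⟩ : ∃ y', y' ≠ y ∧ ¬ IsMin y' ∧ ¬ a2 < y' ∧ ¬ y < y' := by
    obtain ⟨t, ht, h, hn⟩ := H a2 y h2ney
    obtain ⟨f, hinj, hmon, hsep⟩ := real_data h
    by_contra hno
    push Not at hno
    apply hn
    refine rem_min_inc ha2 h2ley f hinj hmon hsep ⟨0, ht⟩ ?_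
    intro w u h2u hyu h2w hyw hwa hwy hlt'
    by_cases hw : IsMin w
    · have hwu : w < u := by
        rcases M4 y w a2 hymin hw ha2 hwa with h' | h'
        · exact h'.trans hyu
        · exact absurd h' h2y
      have hu2 : u ≠ a2 := h2u.ne'
      have := hmon ⟨0, ht⟩ w u hwa hwy hu2 hyu.ne' hwu.le
      omega
    · exact hyw (hno w hwy hw h2w)
  have h2ney' : a2 ≠ y' := fun e => hy'min (e ▸ ha2)
  have h2ley' : ¬ a2 ≤ y' := fun h => by
    rcases h.lt_or_eq with h' | h'
    · exact h2y' h'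
    · exact h2ney' h'
  obtain ⟨t, ht, h, hn⟩ := H a1 y h1y.ne
  obtain ⟨f, hinj, hmon, hsep⟩ := real_data h
  have hy'a1 : y' ≠ a1 := fun e => hy'min (e ▸ ha1)
  obtain ⟨i, hi⟩ := hsep a2 y' h12.symm h2ney hy'a1 hy'y h2ley'
  apply hn
  refine rem_min_above ha1 h1y f hinj hmon hsep i ?_
  intro w u hwy hwa h1w h1u huy hyu hlt'
  have hw : IsMin w := by
    by_contra hw
    rcases M4 w a1 a2 hw ha1 ha2 h12 with h' | h'
    · exact h1w h'
    · exact h2y (h'.trans hwy)
  have hu : ¬ IsMin u := fun h => h1u.not_ge (h h1u.le)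
  have hw2 : w ≠ a2 := fun e => h2y (e ▸ hwy)
  have hwu : ¬ w < u := by
    intro h'
    have := hmon i w u hwa hwy.ne h1u.ne' (fun e => huy e.le) h'.le
    omega
  have h2u : a2 < u := by
    rcases M4 u w a2 hu hw ha2 hw2 with h' | h'
    · exact absurd h' hwu
    · exact h'
  have hwy' : w < y' := by
    rcases M4 y' w a2 hy'min hw ha2 hw2 with h' | h'
    · exact h'
    · exact absurd h' h2y'
  have e1 := hmon i a2 u h12.symm h2ney h1u.ne' (fun e => huy e.le) h2u.le
  have e2 := hmon i w y' hwa hwy.ne hy'a1 hy'y hwy'.le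
  omega

/-- below a non minimal point there is a non minimal point with only minimal points below it. -/
lemma exists_level_one {v : α} (hv : ¬ IsMin v) :
    ∃ y, y ≤ v ∧ ¬ IsMin y ∧ ∀ z, z < y → IsMin z := by
  obtain ⟨y, hyv, hy⟩ := Set.Finite.exists_le_minimal
    (Set.toFinite ({z : α | z ≤ v ∧ ¬ IsMin z} : Set α))
    (show v ∈ ({z : α | z ≤ v ∧ ¬ IsMin z} : Set α) from ⟨le_rfl, hv⟩)
  refine ⟨y, hy.1.1, hy.1.2, ?_⟩
  intro z hz
  by_contra hzm
  exact hz.not_ge (hy.2 ⟨hz.le.trans hy.1.1, hzm⟩ hz.le)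

/-- There are six minimal points. -/
lemma NoRem.six_min (H : NoRem α) (hcard : ∃ x y : α, x ≠ y) :
    6 ≤ ({a : α | IsMin a} : Set α).ncard := by
  classical
  by_contra hlt
  have fin : ({a : α | IsMin a} : Set α).Finite := Set.toFinite _
  -- no six minimal points
  have no6 : ∀ m1 m2 m3 m4 m5 m6 : α, IsMin m1 → IsMin m2 → IsMin m3 → IsMin m4 → IsMin m5 →
      IsMin m6 → ({m1, m2, m3, m4, m5, m6} : Finset α).card = 6 → False := by
    intro m1 m2 m3 m4 m5 m6 h1 h2 h3 h4 h5 h6 hc
    apply hlt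
    have hsub : (({m1, m2, m3, m4, m5, m6} : Finset α) : Set α) ⊆ {a : α | IsMin a} := by
      intro z hz
      simp only [Finset.coe_insert, Finset.coe_singleton, Set.mem_insert_iff,
        Set.mem_singleton_iff] at hz
      simp only [Set.mem_ofPred_eq]
      rcases hz with h | h | h | h | h | h <;> rw [h] <;> assumption
    rw [← hc, ← Set.ncard_coe_finset]
    exact Set.ncard_le_ncard hsub fin
  have card6 : ∀ m1 m2 m3 m4 m5 m6 : α, m1 ≠ m2 → m1 ≠ m3 → m1 ≠ m4 → m1 ≠ m5 → m1 ≠ m6 →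
      m2 ≠ m3 → m2 ≠ m4 → m2 ≠ m5 → m2 ≠ m6 → m3 ≠ m4 → m3 ≠ m5 → m3 ≠ m6 →
      m4 ≠ m5 → m4 ≠ m6 → m5 ≠ m6 → ({m1, m2, m3, m4, m5, m6} : Finset α).card = 6 := by
    intro m1 m2 m3 m4 m5 m6 h12 h13 h14 h15 h16 h23 h24 h25 h26 h34 h35 h36 h45 h46 h56
    rw [Finset.card_insert_of_notMem, Finset.card_insert_of_notMem,
      Finset.card_insert_of_notMem, Finset.card_insert_of_notMem,
      Finset.card_insert_of_notMem, Finset.card_singleton]
    all_goals simp only [Finset.mem_insert, Finset.mem_singleton, not_or]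
    all_goals grind
  -- a non minimal point is above one of three minimal points
  have P5 : ∀ v k l m : α, ¬ IsMin v → IsMin k → IsMin l → IsMin m → k ≠ l → k ≠ m → l ≠ m →
      k < v ∨ l < v ∨ m < v := by
    intro v k l m hv hk hl hm hkl hkm hlm
    by_contra hcon
    push Not at hcon
    obtain ⟨hck, hcl, hcm⟩ := hcon
    obtain ⟨c1, hc1, -, -, h13⟩ := H.three_below hv k l
    obtain ⟨c2, hc2, h21, -, h23⟩ := H.three_below hv c1 c1
    obtain ⟨c3, hc3, h31, h32, h33⟩ := H.three_below hv c1 c2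
    refine no6 k l m c1 c2 c3 hk hl hm hc1 hc2 hc3 (card6 k l m c1 c2 c3 hkl hkm ?_ ?_ ?_ hlm
      ?_ ?_ ?_ ?_ ?_ ?_ h21.symm h31.symm h32.symm)
    all_goals intro e
    · exact hck (e ▸ h13)
    · exact hck (e ▸ h23)
    · exact hck (e ▸ h33)
    · exact hcl (e ▸ h13)
    · exact hcl (e ▸ h23)
    · exact hcl (e ▸ h33)
    · exact hcm (e ▸ h13)
    · exact hcm (e ▸ h23)
    · exact hcm (e ▸ h33)
  -- the witness of a pair
  have C1 : ∀ y k l a : α, ¬ IsMin y → (∀ z, z < y → IsMin z) → IsMin k → IsMin l → k ≠ l →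
      ¬ k < y → ¬ l < y → a < y → ∃ z, (z = k ∨ z = l) ∧
        ∀ v, v ≠ y → (∀ e, e < y → e ≠ a → e ≤ v) → z < v := by
    intro y k l a hy hy1 hk hl hkl hky hly hay
    obtain ⟨t, ht, h, hn⟩ := H a y hay.ne
    have hex : ∃ z, ¬ z ≤ y ∧ ¬ y ≤ z ∧ ∀ v, v ≠ y → (∀ e, e < y → e ≠ a → e ≤ v) → z < v := by
      by_contra hcon
      push Not at hcon
      exact hn (rem_low_insert (hy1 a hay) hay hcon ht h)
    obtain ⟨z, hzy, hyz, hz⟩ := hex
    by_cases hzm : IsMin z
    · by_cases hzk : z = k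
      · exact ⟨z, Or.inl hzk, hz⟩
      by_cases hzl : z = l
      · exact ⟨z, Or.inr hzl, hz⟩
      rcases P5 y k l z hy hk hl hzm hkl (fun e => hzk e.symm) (fun e => hzl e.symm) with
        h' | h' | h'
      · exact absurd h' hky
      · exact absurd h' hly
      · exact absurd h'.le hzy
    · by_cases hkz : k < z
      · exact ⟨k, Or.inl rfl, fun v hv he => hkz.trans (hz v hv he)⟩
      by_cases hlz : l < z
      · exact ⟨l, Or.inr rfl, fun v hv he => hlz.trans (hz v hv he)⟩
      exfalso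
      refine lt_irrefl z (hz z (fun e => hzy e.le) ?_)
      intro e hey _
      rcases P5 z k l e hzm hk hl (hy1 e hey) hkl (fun h' => hky (h' ▸ hey))
        (fun h' => hly (h' ▸ hey)) with h' | h' | h'
      · exact absurd h' hkz
      · exact absurd h' hlz
      · exact h'.le
  -- two points with the same witness
  have C2 : ∀ y k l b1 b2 : α, ¬ IsMin y → (∀ z, z < y → IsMin z) → IsMin k → IsMin l → k ≠ l →
      ¬ k < y → ¬ l < y → b1 < y → b2 < y → b1 ≠ b2 →
      (∀ v, v ≠ y → (∀ e, e < y → e ≠ b1 → e ≤ v) → k < v) →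
      (∀ v, v ≠ y → (∀ e, e < y → e ≠ b2 → e ≤ v) → k < v) → False := by
    intro y k l b1 b2 hy hy1 hk hl hkl hky hly hb1y hb2y hb12 hb1 hb2
    -- the missed minimal point
    have miss : ∀ v, v ≠ y → ¬ IsMin v → ¬ k < v →
        ∃ e, e < y ∧ e ≠ b1 ∧ e ≠ b2 ∧ ¬ e < v := by
      intro v hvy hv hkv
      have h1 : ∃ e, e < y ∧ e ≠ b1 ∧ ¬ e ≤ v := by
        by_contra hcon
        push Not at hcon
        exact hkv (hb1 v hvy hcon)
      have h2 : ∃ e, e < y ∧ e ≠ b2 ∧ ¬ e ≤ v := by
        by_contra hcon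
        push Not at hcon
        exact hkv (hb2 v hvy hcon)
      obtain ⟨e1, he1y, he1b, he1v⟩ := h1
      obtain ⟨e2, he2y, he2b, he2v⟩ := h2
      have he : e1 = e2 := by
        by_contra hne
        rcases P5 v k e1 e2 hv hk (hy1 e1 he1y) (hy1 e2 he2y) (fun e => hky (e ▸ he1y))
          (fun e => hky (e ▸ he2y)) hne with h' | h' | h'
        · exact hkv h'
        · exact he1v h'.le
        · exact he2v h'.le
      refine ⟨e1, he1y, he1b, ?_, fun h' => he1v h'.le⟩
      rw [he]; exact he2b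
    obtain ⟨u, hlu, hku⟩ := H.not_nested hl hk hkl.symm
    have hu : ¬ IsMin u := fun h => hlu.not_ge (h hlu.le)
    obtain ⟨y', hy'u, hy', hy'1⟩ := exists_level_one hu
    have hky' : ¬ k < y' := fun h => hku (h.trans_le hy'u)
    have huy : u ≠ y := fun e => hly (e ▸ hlu)
    have hy'y : y' ≠ y := by
      intro e
      have hyu : y < u := lt_of_le_of_ne (e ▸ hy'u) huy.symm
      exact hku (hb1 u huy (fun e' he' _ => (he'.trans hyu).le))
    obtain ⟨e, hey, heb1, heb2, hey'⟩ := miss y' hy'y hy' hky'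
    have hke : k ≠ e := fun h => hky (h ▸ hey)
    have hle : l ≠ e := fun h => hly (h ▸ hey)
    have hkb1 : k ≠ b1 := fun h => hky (h ▸ hb1y)
    have hkb2 : k ≠ b2 := fun h => hky (h ▸ hb2y)
    have hlb1 : l ≠ b1 := fun h => hly (h ▸ hb1y)
    have hlb2 : l ≠ b2 := fun h => hly (h ▸ hb2y)
    have hemin := hy1 e hey
    have hb1min := hy1 b1 hb1y
    have hb2min := hy1 b2 hb2y
    -- the five minimal points
    have all5 : ∀ m, IsMin m → m = k ∨ m = l ∨ m = b1 ∨ m = b2 ∨ m = e := by
      intro m hm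
      by_contra hcon
      push Not at hcon
      obtain ⟨n1, n2, n3, n4, n5⟩ := hcon
      exact no6 k l b1 b2 e m hk hl hb1min hb2min hemin hm
        (card6 k l b1 b2 e m hkl hkb1 hkb2 hke n1.symm hlb1 hlb2 hle n2.symm hb12 heb1.symm
          n3.symm heb2.symm n4.symm n5.symm)
    -- minimal points different from `k` and `e` are below a point which misses `k` and `e`
    have other : ∀ v m, ¬ IsMin v → ¬ k < v → ¬ e < v → IsMin m → m ≠ k → m ≠ e → m < v := by
      intro v m hv hkv hev hm hmk hme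
      rcases P5 v k e m hv hk hemin hm hke hmk.symm hme.symm with h' | h' | h'
      · exact absurd h' hkv
      · exact absurd h' hev
      · exact h'
    have hly' : l < y' := other y' l hy' hky' hey' hl hkl.symm hle
    have hb1y' : b1 < y' := other y' b1 hy' hky' hey' hb1min hkb1.symm heb1.symm
    have hb2y' : b2 < y' := other y' b2 hy' hky' hey' hb2min hkb2.symm heb2.symm
    -- the witness for `y'` and `l`
    have W1 : ∀ v, v ≠ y' → (∀ e', e' < y' → e' ≠ l → e' ≤ v) → e < v := by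
      obtain ⟨z, hz, hzv⟩ := C1 y' k e l hy' hy'1 hk hemin hke hky' hey' hly'
      have hzy : z < y := by
        apply hzv y hy'y.symm
        intro e' he' hel
        rcases all5 e' (hy'1 e' he') with h' | h' | h' | h' | h'
        · exact absurd (h' ▸ he') hky'
        · exact absurd h' hel
        · rw [h']; exact hb1y.le
        · rw [h']; exact hb2y.le
        · exact absurd (h' ▸ he') hey'
      rcases hz with h' | h'
      · exact absurd (h' ▸ hzy) hky
      · rw [← h']; exact hzv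
    -- only `y` and `y'` miss `k`
    have only : ∀ v, ¬ IsMin v → ¬ k < v → v = y ∨ v = y' := by
      intro v hv hkv
      by_contra hcon
      push Not at hcon
      obtain ⟨hvy, hvy'⟩ := hcon
      obtain ⟨e2, he2y, he2b1, he2b2, he2v⟩ := miss v hvy hv hkv
      have he2 : e2 = e := by
        rcases all5 e2 (hy1 e2 he2y) with h' | h' | h' | h' | h'
        · exact absurd (h' ▸ he2y) hky
        · exact absurd (h' ▸ he2y) hly
        · exact absurd h' he2b1
        · exact absurd h' he2b2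
        · exact h'
      rw [he2] at he2v
      apply he2v
      apply W1 v hvy'
      intro e' he' _
      exact (other v e' hv hkv he2v (hy'1 e' he') (fun h => hky' (h ▸ he'))
        (fun h => hey' (h ▸ he'))).le
    -- the witness for `y` and `e`
    have W2 : ∀ v, v ≠ y → (∀ e', e' < y → e' ≠ e → e' ≤ v) → l < v := by
      obtain ⟨z, hz, hzv⟩ := C1 y k l e hy hy1 hk hl hkl hky hly hey
      have hzy' : z < y' := by
        apply hzv y' hy'y
        intro e' he' hee
        exact (other y' e' hy' hky' hey' (hy1 e' he') (fun h => hky (h ▸ he')) hee).le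
      rcases hz with h' | h'
      · exact absurd (h' ▸ hzy') hky'
      · rw [← h']; exact hzv
    -- the contradiction
    have hkney : k ≠ y := fun h => hy (h ▸ hk)
    have hkley : ¬ k ≤ y := fun h => by
      rcases h.lt_or_eq with h' | h'
      · exact hky h'
      · exact hkney h'
    obtain ⟨t, ht, h, hn⟩ := H k y hkney
    obtain ⟨f, hinj, hmon, hsep⟩ := real_data h
    have hy'k : y' ≠ k := fun h => hy' (h ▸ hk)
    have hley' : ¬ e ≤ y' := fun h => by
      rcases h.lt_or_eq with h' | h'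
      · exact hey' h'
      · exact hy' (h' ▸ hemin)
    obtain ⟨i, hi⟩ := hsep e y' hke.symm hey.ne hy'k hy'y hley'
    apply hn
    refine rem_min_inc hk hkley f hinj hmon hsep i ?_
    intro w u hku' hyu' hkw hyw hwk hwy hlt'
    by_cases hw : IsMin w
    · have hwu : w < u := by
        by_cases hwl : w = l
        · rw [hwl]
          exact W2 u hyu'.ne' (fun e' he' _ => (he'.trans hyu').le)
        · rcases P5 y k l w hy hk hl hw hkl hwk.symm (fun h => hwl h.symm) with h' | h' | h'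
          · exact absurd h' hky
          · exact absurd h' hly
          · exact h'.trans hyu'
      have := hmon i w u hwk hwy hku'.ne' hyu'.ne' hwu.le
      omega
    · rcases only w hw hkw with h' | h'
      · exact hwy h'
      · have := hmon i e u hke.symm hey.ne hku'.ne' hyu'.ne' (hey.trans hyu').le
        rw [h'] at hlt'
        omega
  -- the pigeonhole
  obtain ⟨v, k, l, hv, hk, hl, hkl, hkv, hlv⟩ := H.two_inc hcard
  obtain ⟨y, hyv, hy, hy1⟩ := exists_level_one hv
  have hky : ¬ k < y := fun h => hkv (h.trans_le hyv)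
  have hly : ¬ l < y := fun h => hlv (h.trans_le hyv)
  obtain ⟨c1, hc1, -, -, h13⟩ := H.three_below hy k l
  obtain ⟨c2, hc2, h21, -, h23⟩ := H.three_below hy c1 c1
  obtain ⟨c3, hc3, h31, h32, h33⟩ := H.three_below hy c1 c2
  obtain ⟨z1, hz1, hv1⟩ := C1 y k l c1 hy hy1 hk hl hkl hky hly h13
  obtain ⟨z2, hz2, hv2⟩ := C1 y k l c2 hy hy1 hk hl hkl hky hly h23
  obtain ⟨z3, hz3, hv3⟩ := C1 y k l c3 hy hy1 hk hl hkl hky hly h33
  rcases hz1 with h1 | h1 <;> rcases hz2 with h2 | h2 <;> rcases hz3 with h3 | h3 <;>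
    subst h1
  · subst h2
    exact C2 y _ l c1 c2 hy hy1 hk hl hkl hky hly h13 h23 h21.symm hv1 hv2
  · subst h2
    exact C2 y _ l c1 c2 hy hy1 hk hl hkl hky hly h13 h23 h21.symm hv1 hv2
  · subst h3
    exact C2 y _ l c1 c3 hy hy1 hk hl hkl hky hly h13 h33 h31.symm hv1 hv3
  · subst h2
    rw [h3] at hv3
    exact C2 y _ _ c2 c3 hy hy1 hl hk hkl.symm hly hky h23 h33 h32.symm hv2 hv3
  · subst h2
    rw [h3] at hv3
    exact C2 y _ _ c2 c3 hy hy1 hk hl hkl hky hly h23 h33 h32.symm hv2 hv3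
  · rw [h3] at hv3
    exact C2 y _ _ c1 c3 hy hy1 hl hk hkl.symm hly hky h13 h33 h31.symm hv1 hv3
  · rw [h2] at hv2
    exact C2 y _ _ c1 c2 hy hy1 hl hk hkl.symm hly hky h13 h23 h21.symm hv1 hv2
  · rw [h2] at hv2
    exact C2 y _ _ c1 c2 hy hy1 hl hk hkl.symm hly hky h13 h23 h21.symm hv1 hv2

/-- There are six maximal points. -/
lemma NoRem.six_max (H : NoRem α) (hcard : ∃ x y : α, x ≠ y) :
    6 ≤ ({a : α | IsMax a} : Set α).ncard := by
  obtain ⟨x, y, hxy⟩ := hcard
  have := H.dual.six_min ⟨OrderDual.toDual x, OrderDual.toDual y, fun e => hxy (OrderDual.toDual.injective e)⟩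
  have h2 : ({a : αᵒᵈ | IsMin a} : Set αᵒᵈ) = OrderDual.ofDual ⁻¹' ({a : α | IsMax a} : Set α) := by
    ext a
    exact ⟨fun h b hb => h hb, fun h b hb => h hb⟩
  rw [h2] at this
  exact this

end Pool.Agent.Helper419_RPC
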