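import Pool.Agent.Helper419_RPC.Facts2

/-!
# A poset without removable pairs: the minimal points, and a lower part of dimension two
-/

set_option autoImplicit false

namespace Pool.Agent.Helper419_RPC

open Set

variable {α : Type*} [PartialOrder α] [Finite α]

/-- No two points are removable. -/
def NoRem (α : Type*) [PartialOrder α] : Prop :=
  ∀ x y : α, x ≠ y → ∃ t, 1 ≤ t ∧ Rz ({x, y}ᶜ : Set α) t ∧ ¬ Rz (Set.univ : Set α) (t + 1)

/-- every point is above a minimal point. -/
lemma exists_min_le (z : α) : ∃ a, IsMin a ∧ a ≤ z := by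
  obtain ⟨a, ha, hmin⟩ := Set.Finite.exists_le_minimal (Set.toFinite (Set.univ : Set α))
    (Set.mem_univ z)
  exact ⟨a, fun b hb => hmin.2 (Set.mem_univ b) hb, ha⟩

/-- every point is below a maximal point. -/
lemma exists_max_ge (z : α) : ∃ c, IsMax c ∧ z ≤ c := by
  obtain ⟨a, ha, hmax⟩ := Set.Finite.exists_le_maximal (Set.toFinite (Set.univ : Set α))
    (Set.mem_univ z)
  exact ⟨a, fun b hb => hmax.2 (Set.mem_univ b) hb, ha⟩

/-- minimal points are below maximal points. -/
lemma NoRem.min_le_max (H : NoRem α) {a c : α} (ha : IsMin a) (hc : IsMax c) : a ≤ c := by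
  by_contra hac
  obtain ⟨t, ht, h, hn⟩ := H a c (fun e => hac e.le)
  exact hn (rem_min_max ha hc hac ht h)

/-- there are two maximal points. -/
lemma NoRem.two_max (H : NoRem α) (hcard : ∃ x y : α, x ≠ y) :
    ∃ c c' : α, IsMax c ∧ IsMax c' ∧ c ≠ c' := by
  obtain ⟨x, y, hxy⟩ := hcard
  obtain ⟨c, hc, hxc⟩ := exists_max_ge x
  by_contra hcon
  push Not at hcon
  have htop : ∀ z, z ≤ c := by
    intro z
    obtain ⟨c', hc', hz⟩ := exists_max_ge z
    rw [hcon c c' hc hc']
    exact hz
  -- a minimal point different from `c`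
  have hex : ∃ a, IsMin a ∧ a ≠ c := by
    obtain ⟨w, hw⟩ : ∃ w : α, w ≠ c := by
      by_cases h : x = c
      · exact ⟨y, fun e => hxy (h.trans e.symm)⟩
      · exact ⟨x, h⟩
    obtain ⟨a, ha, haw⟩ := exists_min_le w
    refine ⟨a, ha, fun e => hw ?_⟩
    subst e
    exact le_antisymm (htop w) haw
  obtain ⟨a, ha, hac⟩ := hex
  obtain ⟨t, ht, h, hn⟩ := H a c hac
  exact hn (rem_top ha htop hac ht h)

/-- a point which is not minimal has two minimal points below it. -/
lemma NoRem.two_below (H : NoRem α) {u a : α} (hau : a < u) :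
    ∃ b, IsMin b ∧ b ≠ a ∧ b < u := by
  by_contra hcon
  push Not at hcon
  -- a minimal point `y` among the non minimal points below `u`
  obtain ⟨y, hyu, hy⟩ := Set.Finite.exists_le_minimal
    (Set.toFinite ({z : α | z ≤ u ∧ ¬ IsMin z} : Set α))
    (show u ∈ ({z : α | z ≤ u ∧ ¬ IsMin z} : Set α) from
      ⟨le_rfl, fun h => (hau.not_ge (h hau.le))⟩)
  have hyu' : y ≤ u := hy.1.1
  have hymin : ¬ IsMin y := hy.1.2
  have hbelow : ∀ z, z < y → z = a := by
    intro z hz
    have hzmin : IsMin z := by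
      by_contra hzm
      exact hz.not_ge (hy.2 ⟨hz.le.trans hyu', hzm⟩ hz.le)
    by_contra hza
    exact hcon z hzmin hza (lt_of_lt_of_le hz hyu')
  obtain ⟨z, hz⟩ : ∃ z, z < y := by
    by_contra hno
    push Not at hno
    exact hymin fun b hb => by
      rcases hb.lt_or_eq with h | h
      · exact absurd h (hno b)
      · exact h.ge
  have hay : a < y := by rw [← hbelow z hz]; exact hz
  obtain ⟨t, ht, h, hn⟩ := H a y hay.ne
  exact hn (rem_unique_lower hay hbelow ht h)

/-- the sets of points above minimal points are not nested. -/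
lemma NoRem.not_nested (H : NoRem α) {a b : α} (ha : IsMin a) (hb : IsMin b) (hab : a ≠ b) :
    ∃ u, a < u ∧ ¬ b < u := by
  by_contra hcon
  push Not at hcon
  obtain ⟨t, ht, h, hn⟩ := H a b hab
  exact hn (rem_nested ha hb hab hcon ht h)

/-- If no two points are removable then the non maximal points do not have dimension at most
two. -/
lemma NoRem.not_low (H : NoRem α) (hcard : ∃ x y : α, x ≠ y) {S : Set α}
    (hS : ∀ z, ¬ IsMax z → z ∈ S) : ¬ Rz S 2 := by
  rintro ⟨f, hinj, hord⟩
  obtain ⟨c, c', hc, hc', hcc⟩ := H.two_max hcard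
  -- minimal points are not maximal
  have hmm : ∀ a : α, IsMin a → ¬ IsMax a := by
    intro a ha hamax
    have h1 : a ≤ c := H.min_le_max ha hc
    have h2 : a ≤ c' := H.min_le_max ha hc'
    exact hcc ((h1.antisymm (hamax h1)).symm.trans (h2.antisymm (hamax h2)))
  -- the first minimal point
  have hne : ({a : α | IsMin a} : Set α).Nonempty := by
    obtain ⟨a, ha, _⟩ := exists_min_le c
    exact ⟨a, ha⟩
  obtain ⟨a1, ha1, hmin1⟩ := Set.exists_min_image ({a : α | IsMin a} : Set α) (f 0)
    (Set.toFinite _) hne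
  have ha1' : IsMin a1 := ha1
  have h1c : a1 < c := by
    rcases (H.min_le_max ha1' hc).lt_or_eq with h | h
    · exact h
    · exact absurd (h ▸ hc) (hmm a1 ha1')
  obtain ⟨b, hb, hba, _⟩ := H.two_below h1c
  -- the second one
  have hne2 : ({a : α | IsMin a ∧ a ≠ a1} : Set α).Nonempty := ⟨b, hb, hba⟩
  obtain ⟨a2, ha2, hmin2⟩ := Set.exists_min_image ({a : α | IsMin a ∧ a ≠ a1} : Set α) (f 0)
    (Set.toFinite _) hne2
  have ha2' : IsMin a2 := ha2.1
  have hne12 : a1 ≠ a2 := fun e => ha2.2 e.symm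
  obtain ⟨u, hu1, hu2⟩ := H.not_nested ha1' ha2' hne12
  have humax : ¬ IsMax u := by
    intro hu
    rcases (H.min_le_max ha2' hu).lt_or_eq with h | h
    · exact hu2 h
    · exact hmm a2 ha2' (h ▸ hu)
  obtain ⟨a3, ha3, h31, h3u⟩ := H.two_below hu1
  have s1 : a1 ∈ S := hS _ (hmm a1 ha1')
  have s2 : a2 ∈ S := hS _ (hmm a2 ha2')
  have s3 : a3 ∈ S := hS _ (hmm a3 ha3)
  have su : u ∈ S := hS _ humax
  -- comparison in the first extension
  have e1 : f 0 a2 ≤ f 0 u :=
    (hmin2 a3 ⟨ha3, h31⟩).trans ((hord a3 s3 u su).1 h3u.le 0)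
  -- comparison in the second extension
  have e2 : f 1 a2 ≤ f 1 u := by
    have h12 : ¬ a1 ≤ a2 := fun h => hne12 (h.antisymm (ha2' h))
    have : f 1 a2 < f 1 a1 := by
      by_contra hcon
      push Not at hcon
      apply h12
      rw [hord a1 s1 a2 s2]
      intro i
      fin_cases i
      · exact hmin1 a2 ha2'
      · exact hcon
    exact this.le.trans ((hord a1 s1 u su).1 hu1.le 1)
  have hle : a2 ≤ u := by
    rw [hord a2 s2 u su]
    intro i
    fin_cases i
    · exact e1
    · exact e2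
  rcases hle.lt_or_eq with h | h
  · exact hu2 h
  · subst h
    exact hu1.not_ge (ha2' hu1.le)

/-- Every poset of dimension at most four with two points has a removable pair. -/
lemma not_noRem_of_dim_four (hcard : ∃ x y : α, x ≠ y) (h4 : Rz (Set.univ : Set α) 4) :
    ¬ NoRem α := by
  intro H
  obtain ⟨c, c', hc, hc', hcc⟩ := H.two_max hcard
  obtain ⟨t, ht, h, hn⟩ := H c c' hcc
  have ht2 : t ≤ 2 := by
    by_contra hcon
    exact hn (h4.mono (by omega) (by omega))
  refine H.not_low hcard (S := ({c, c'}ᶜ : Set α)) ?_ (h.mono ht ht2)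
  intro z hz hz'
  rcases hz' with e | e
  · rw [e] at hz; exact hz hc
  · rw [Set.mem_singleton_iff] at e
    rw [e] at hz; exact hz hc'

end Pool.Agent.Helper419_RPC
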