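import Pool.Agent.Helper419_RPC.Dual

/-!
# The relation between minimal and middle points is not an intersection of two Ferrers relations
-/

set_option autoImplicit false

namespace Pool.Agent.Helper419_RPC

variable {α : Type*} [PartialOrder α] [Finite α]

/-- In a poset without removable pairs the relation `a < u` between minimal points `a` and points
`u` which are neither minimal nor maximal is not an intersection of two Ferrers relations. -/
lemma NoRem.not_two_low (H : NoRem α) (hcard : ∃ x y : α, x ≠ y) (r l : Fin 2 → α → ℕ)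
    (hrl : ∀ a u : α, IsMin a → ¬ IsMin u → ¬ IsMax u → (a < u ↔ ∀ i, r i a < l i u)) : False := by
  obtain ⟨c, c', hc, hc', hcc⟩ := H.two_max hcard
  -- minimal points are not maximal
  have hmm : ∀ a : α, IsMin a → ¬ IsMax a := by
    intro a ha hamax
    have h1 : a ≤ c := H.min_le_max ha hc
    have h2 : a ≤ c' := H.min_le_max ha hc'
    exact hcc ((h1.antisymm (hamax h1)).symm.trans (h2.antisymm (hamax h2)))
  have hne : ({a : α | IsMin a} : Set α).Nonempty := by
    obtain ⟨a, ha, _⟩ := exists_min_le c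
    exact ⟨a, ha⟩
  obtain ⟨a1, ha1, hmin1⟩ := Set.exists_min_image ({a : α | IsMin a} : Set α) (r 0)
    (Set.toFinite _) hne
  have ha1' : IsMin a1 := ha1
  have h1c : a1 < c := by
    rcases (H.min_le_max ha1' hc).lt_or_eq with h | h
    · exact h
    · exact absurd (h ▸ hc) (hmm a1 ha1')
  obtain ⟨b, hb, hba, _⟩ := H.two_below h1c
  have hne2 : ({a : α | IsMin a ∧ a ≠ a1} : Set α).Nonempty := ⟨b, hb, hba⟩
  obtain ⟨a2, ha2, hmin2⟩ := Set.exists_min_image ({a : α | IsMin a ∧ a ≠ a1} : Set α) (r 0)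
    (Set.toFinite _) hne2
  have ha2' : IsMin a2 := ha2.1
  have hne12 : a1 ≠ a2 := fun e => ha2.2 e.symm
  -- a point above one minimal point and not above another one is in the middle
  have hmid : ∀ a a' u : α, IsMin a → IsMin a' → a < u → ¬ a' < u → ¬ IsMin u ∧ ¬ IsMax u := by
    intro a a' u ha ha' hu hnu
    refine ⟨fun h => hu.not_ge (h hu.le), fun h => ?_⟩
    rcases (H.min_le_max ha' h).lt_or_eq with h1 | h1
    · exact hnu h1
    · exact hmm a' ha' (h1 ▸ h)
  rcases le_or_gt (r 1 a2) (r 1 a1) with hcase | hcase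
  · obtain ⟨u, hu1, hu2⟩ := H.not_nested ha1' ha2' hne12
    obtain ⟨um, uM⟩ := hmid a1 a2 u ha1' ha2' hu1 hu2
    obtain ⟨a3, ha3, h31, h3u⟩ := H.two_below hu1
    apply hu2
    rw [hrl a2 u ha2' um uM]
    intro i
    fin_cases i
    · exact lt_of_le_of_lt (hmin2 a3 ⟨ha3, h31⟩) ((hrl a3 u ha3 um uM).1 h3u 0)
    · exact lt_of_le_of_lt hcase ((hrl a1 u ha1' um uM).1 hu1 1)
  · obtain ⟨u, hu1, hu2⟩ := H.not_nested ha2' ha1' hne12.symm
    obtain ⟨um, uM⟩ := hmid a2 a1 u ha2' ha1' hu1 hu2
    apply hu2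
    rw [hrl a1 u ha1' um uM]
    intro i
    fin_cases i
    · exact lt_of_le_of_lt (hmin1 a2 ha2') ((hrl a2 u ha2' um uM).1 hu1 0)
    · exact lt_of_lt_of_le hcase ((hrl a2 u ha2' um uM).1 hu1 1).le

/-- The dual statement. -/
lemma NoRem.not_two_high (H : NoRem α) (hcard : ∃ x y : α, x ≠ y) (r l : Fin 2 → α → ℕ)
    (hrl : ∀ u c : α, IsMax c → ¬ IsMax u → ¬ IsMin u → (u < c ↔ ∀ i, r i u < l i c)) : False := by
  obtain ⟨x, y, hxy⟩ := hcard
  -- a common bound
  obtain ⟨M, hM⟩ : ∃ M : ℕ, ∀ i z, r i z ≤ M ∧ l i z ≤ M := by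
    have h1 : (Set.range (fun p : Fin 2 × α => r p.1 p.2 + l p.1 p.2)).Finite := Set.toFinite _
    obtain ⟨M, hM⟩ := h1.bddAbove
    refine ⟨M, fun i z => ?_⟩
    have := hM ⟨(i, z), rfl⟩
    simp only at this
    omega
  refine H.dual.not_two_low ⟨OrderDual.toDual x, OrderDual.toDual y,
    fun e => hxy (OrderDual.toDual.injective e)⟩
    (fun i z => M - l i (OrderDual.ofDual z)) (fun i z => M - r i (OrderDual.ofDual z)) ?_
  intro c u hc hu hu'
  have h1 := hrl (OrderDual.ofDual u) (OrderDual.ofDual c) (fun b hb => hc hb)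
    (fun h => hu (fun b hb => h hb)) (fun h => hu' (fun b hb => h hb))
  have h2 : c < u ↔ OrderDual.ofDual u < OrderDual.ofDual c := Iff.rfl
  rw [h2, h1]
  constructor
  · intro h i
    have := h i
    have := hM i (OrderDual.ofDual u)
    have := hM i (OrderDual.ofDual c)
    show M - l i (OrderDual.ofDual c) < M - r i (OrderDual.ofDual u)
    omega
  · intro h i
    have h3 : M - l i (OrderDual.ofDual c) < M - r i (OrderDual.ofDual u) := h i
    have := hM i (OrderDual.ofDual u)
    have := hM i (OrderDual.ofDual c)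
    omega

end Pool.Agent.Helper419_RPC
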